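import Pool.Agent.H4.MH.Induct
import Pool.Agent.H25.NP.Fin
import Pool.Agent.H25.NP.Prog
import Pool.Agent.H25.NM.Planted

/-!
The base case: the clique function and its dual are hard for monotone circuits.
-/

namespace Pool.Agent.H4.MH

open Finset
open Pool.Agent.H25.NM

/-- circuits become monotone programs on graphs -/
theorem monoSize_of_circuit {n s : ℕ} (C : Circuit (Sym2 (Fin n)) s) (out : Fin s) :
    MonoSize ((s + Fintype.card (Sym2 (Fin n))) * (s + Fintype.card (Sym2 (Fin n)) + 1))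
      (fun G : SimpleGraph (Fin n) => C.fn out fun e => e ∈ G.edgeSet) := by
  classical
  set N := Fintype.card (Sym2 (Fin n)) with hN
  let e : Sym2 (Fin n) ≃ Fin N := Fintype.equivFin _
  -- the program
  let f : ℕ → Finset (Sym2 (Fin n)) → Prop := fun i F =>
    if h : i < N then e.symm ⟨i, h⟩ ∈ F
    else if h : i - N < s then C.fn ⟨i - N, h⟩ fun v => v ∈ F else True
  have f1 : ∀ i (h : i < N) F, f i F ↔ e.symm ⟨i, h⟩ ∈ F := by
    intro i h F
    show (if h : i < N then e.symm ⟨i, h⟩ ∈ F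
      else if h : i - N < s then C.fn ⟨i - N, h⟩ (fun v => v ∈ F) else True) ↔ _
    rw [dif_pos h]
  have f2 : ∀ (j : Fin s) F, f (N + j.1) F ↔ C.fn j fun v => v ∈ F := by
    intro j F
    show (if h : N + j.1 < N then e.symm ⟨N + j.1, h⟩ ∈ F
      else if h : N + j.1 - N < s then C.fn ⟨N + j.1 - N, h⟩ (fun v => v ∈ F) else True) ↔ _
    have h1 : ¬ (N + j.1 < N) := by omega
    have h2 : N + j.1 - N = j.1 := by omega
    rw [dif_neg h1]
    have h3 : N + j.1 - N < s := by
      rw [h2]
      exact j.2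
    rw [dif_pos h3]
    have h4 : (⟨N + j.1 - N, h3⟩ : Fin s) = j := Fin.ext h2
    rw [h4]
  have hf : ∀ i < s + N, Pool.Agent.H25.NS.MGate f i := by
    intro i hi
    by_cases h : i < N
    · exact Or.inl ⟨e.symm ⟨i, h⟩, fun F => f1 i h F⟩
    · obtain ⟨j, rfl⟩ : ∃ j, i = N + j := ⟨i - N, by omega⟩
      have hj : j < s := by omega
      obtain ⟨S, T, hT, h1⟩ := C.gate ⟨j, hj⟩
      -- the set of earlier gates
      let A : Finset ℕ := (univ.filter fun v : Sym2 (Fin n) => v ∈ S).image (fun v => (e v).1) ∪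
        (univ.filter fun a : Fin s => a ∈ T).image fun a => N + a.1
      have hA : ∀ a ∈ A, a < N + j := by
        intro a ha
        rcases Finset.mem_union.1 ha with ha | ha
        · obtain ⟨v, _, rfl⟩ := Finset.mem_image.1 ha
          have := (e v).2
          omega
        · obtain ⟨a', ha', rfl⟩ := Finset.mem_image.1 ha
          have := hT a' (Finset.mem_filter.1 ha').2
          have : a'.1 < j := this
          omega
      have hAv : ∀ (F : Finset (Sym2 (Fin n))) (v : Sym2 (Fin n)), f (e v).1 F ↔ v ∈ F := by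
        intro F v
        rw [f1 _ (e v).2]
        simp
      rcases h1 with h1 | h1
      · refine Or.inr (Or.inl ⟨A, hA, fun F => ?_⟩)
        rw [f2 ⟨j, hj⟩ F, h1]
        constructor
        · rintro ⟨h2, h3⟩ a ha
          rcases Finset.mem_union.1 ha with ha | ha
          · obtain ⟨v, hv, rfl⟩ := Finset.mem_image.1 ha
            exact (hAv F v).2 (h2 v (Finset.mem_filter.1 hv).2)
          · obtain ⟨a', ha', rfl⟩ := Finset.mem_image.1 ha
            exact (f2 a' F).2 (h3 a' (Finset.mem_filter.1 ha').2)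
        · intro h2
          refine ⟨fun v hv => (hAv F v).1 (h2 _ (Finset.mem_union_left _
            (Finset.mem_image_of_mem _ (Finset.mem_filter.2 ⟨Finset.mem_univ _, hv⟩)))),
            fun a ha => (f2 a F).1 (h2 _ (Finset.mem_union_right _
              (Finset.mem_image.2 ⟨a, Finset.mem_filter.2 ⟨Finset.mem_univ _, ha⟩, rfl⟩)))⟩
      · refine Or.inr (Or.inr ⟨A, hA, fun F => ?_⟩)
        rw [f2 ⟨j, hj⟩ F, h1]
        constructor
        · rintro (⟨v, hv, h2⟩ | ⟨a, ha, h2⟩)
          · exact ⟨_, Finset.mem_union_left _ (Finset.mem_image_of_mem _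
              (Finset.mem_filter.2 ⟨Finset.mem_univ _, hv⟩)), (hAv F v).2 h2⟩
          · exact ⟨_, Finset.mem_union_right _ (Finset.mem_image.2
              ⟨a, Finset.mem_filter.2 ⟨Finset.mem_univ _, ha⟩, rfl⟩), (f2 a F).2 h2⟩
        · rintro ⟨a, ha, h2⟩
          rcases Finset.mem_union.1 ha with ha | ha
          · obtain ⟨v, hv, rfl⟩ := Finset.mem_image.1 ha
            exact Or.inl ⟨v, (Finset.mem_filter.1 hv).2, (hAv F v).1 h2⟩
          · obtain ⟨a', ha', rfl⟩ := Finset.mem_image.1 ha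
            exact Or.inr ⟨a', (Finset.mem_filter.1 ha').2, (f2 a' F).1 h2⟩
  have hmain := Pool.Agent.H25.NP.monoSize_of_program hf (i₀ := N + out.1)
    (by have := out.2; omega)
  have h2 : (fun G : SimpleGraph (Fin n) => f (N + out.1) (Pool.Agent.H25.NP.es G)) =
      fun G : SimpleGraph (Fin n) => C.fn out fun e => e ∈ G.edgeSet := by
    funext G
    refine propext ?_
    rw [f2 out]
    have h3 : (fun v => v ∈ Pool.Agent.H25.NP.es G) = fun v => v ∈ G.edgeSet :=
      funext fun v => propext Pool.Agent.H25.NP.mem_es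
    rw [h3]
  rw [h2] at hmain
  exact hmain

/-- A random graph seldom contains a clique. -/
theorem nc_block {V A₀ : Type} [Fintype V] [DecidableEq V] [Fintype A₀] (S₀ : Finset A₀) (k : ℕ) :
    nc (fun ω : Sym2 V → A₀ => ¬ (gr S₀ ω).CliqueFree k) * Fintype.card A₀ ^ (k.choose 2) ≤
      (Fintype.card V).choose k * (S₀.card ^ (k.choose 2) * Fintype.card (Sym2 V → A₀)) := by
  classical
  have h1 : nc (fun ω : Sym2 V → A₀ => ¬ (gr S₀ ω).CliqueFree k) ≤
      ∑ U ∈ powersetCard k (univ : Finset V),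
        nc (fun ω : Sym2 V → A₀ => ∀ e ∈ ed U, ω e ∈ S₀) := by
    refine le_trans (nc_mono fun ω hω => ?_) (nc_bex_le _ _)
    unfold SimpleGraph.CliqueFree at hω
    push Not at hω
    obtain ⟨U, hU⟩ := hω
    refine ⟨U, Finset.mem_powersetCard.2 ⟨Finset.subset_univ _, hU.card_eq⟩, fun e he => ?_⟩
    induction e using Sym2.ind with
    | _ u v =>
      rw [mem_ed] at he
      exact (hU.isClique he.2.1 he.2.2 he.1).2
  calc nc (fun ω : Sym2 V → A₀ => ¬ (gr S₀ ω).CliqueFree k) * Fintype.card A₀ ^ (k.choose 2)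
      ≤ (∑ U ∈ powersetCard k (univ : Finset V),
        nc (fun ω : Sym2 V → A₀ => ∀ e ∈ ed U, ω e ∈ S₀)) * Fintype.card A₀ ^ (k.choose 2) :=
        Nat.mul_le_mul_right _ h1
    _ = ∑ U ∈ powersetCard k (univ : Finset V),
        nc (fun ω : Sym2 V → A₀ => ∀ e ∈ ed U, ω e ∈ S₀) * Fintype.card A₀ ^ (k.choose 2) :=
        Finset.sum_mul _ _ _
    _ = ∑ U ∈ powersetCard k (univ : Finset V),
        S₀.card ^ (k.choose 2) * Fintype.card (Sym2 V → A₀) := by
        refine Finset.sum_congr rfl fun U hU => ?_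
        have hk := (Finset.mem_powersetCard.1 hU).2
        have h2 := nc_forall_mem (ed U) S₀
        rw [card_ed, hk] at h2
        exact h2
    _ = _ := by
        rw [Finset.sum_const, Finset.card_powersetCard, Finset.card_univ, smul_eq_mul]

end Pool.Agent.H4.MH
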