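import Pool.Agent.H4.MH.Defs

/-!
Circuits: monotonicity, substitution of variables and constants, duality; the recursive form of
the quantified circuits.
-/

namespace Pool.Agent.H4.MH

variable {V W : Type} {s : ℕ}

theorem Circuit.mono (C : Circuit V s) {x y : V → Prop} (h : ∀ v, x v → y v) :
    ∀ i, C.fn i x → C.fn i y := by
  intro i
  induction i using WellFoundedLT.induction with
  | _ i ih =>
    intro hx
    obtain ⟨S, T, hT, h1 | h1⟩ := C.gate i
    · rw [h1] at hx ⊢
      exact ⟨fun v hv => h v (hx.1 v hv), fun j hj => ih j (hT j hj) (hx.2 j hj)⟩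
    · rw [h1] at hx ⊢
      rcases hx with ⟨v, hv, hx⟩ | ⟨j, hj, hx⟩
      · exact Or.inl ⟨v, hv, h v hx⟩
      · exact Or.inr ⟨j, hj, ih j (hT j hj) hx⟩

/-- Every variable is replaced by a variable or a constant. -/
def IsSub (σ : W → (V → Prop) → Prop) : Prop :=
  ∀ w, (∃ v, ∀ x, σ w x ↔ x v) ∨ (∀ x, σ w x) ∨ (∀ x, ¬ σ w x)

/-- Substitution of variables and constants into a circuit. -/
def Circuit.subst (C : Circuit W s) {σ : W → (V → Prop) → Prop} (hσ : IsSub σ) :
    Circuit V s where
  fn := fun i x => C.fn i fun w => σ w x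
  gate := by
    intro i
    obtain ⟨S, T, hT, h1 | h1⟩ := C.gate i
    · by_cases hf : ∃ w ∈ S, ∀ x, ¬ σ w x
      · obtain ⟨w, hw, hf⟩ := hf
        refine ⟨∅, ∅, fun j hj => absurd hj (Set.notMem_empty j), Or.inr fun x => ?_⟩
        constructor
        · intro h
          exact absurd (((h1 _).1 h).1 w hw) (hf x)
        · rintro (⟨v, hv, _⟩ | ⟨j, hj, _⟩)
          · exact absurd hv (Set.notMem_empty v)
          · exact absurd hj (Set.notMem_empty j)
      · refine ⟨{v | ∃ w ∈ S, ∀ x, σ w x ↔ x v}, T, hT, Or.inl fun x => ?_⟩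
        rw [h1]
        refine and_congr_left fun _ => ?_
        constructor
        · rintro h v ⟨w, hw, hwv⟩
          exact (hwv x).1 (h w hw)
        · intro h w hw
          rcases hσ w with ⟨v, hv⟩ | h2 | h2
          · exact (hv x).2 (h v ⟨w, hw, hv⟩)
          · exact h2 x
          · exact absurd ⟨w, hw, h2⟩ hf
    · by_cases hf : ∃ w ∈ S, ∀ x, σ w x
      · obtain ⟨w, hw, hf⟩ := hf
        refine ⟨∅, ∅, fun j hj => absurd hj (Set.notMem_empty j), Or.inl fun x => ?_⟩
        constructor
        · intro _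
          exact ⟨fun v hv => absurd hv (Set.notMem_empty v),
            fun j hj => absurd hj (Set.notMem_empty j)⟩
        · intro _
          exact (h1 _).2 (Or.inl ⟨w, hw, hf x⟩)
      · refine ⟨{v | ∃ w ∈ S, ∀ x, σ w x ↔ x v}, T, hT, Or.inr fun x => ?_⟩
        rw [h1]
        refine or_congr_left ?_
        constructor
        · rintro ⟨w, hw, h⟩
          rcases hσ w with ⟨v, hv⟩ | h2 | h2
          · exact ⟨v, ⟨w, hw, hv⟩, (hv x).1 h⟩
          · exact absurd ⟨w, hw, h2⟩ hf
          · exact absurd h (h2 x)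
        · rintro ⟨v, ⟨w, hw, hwv⟩, h⟩
          exact ⟨w, hw, (hwv x).2 h⟩

/-- The dual circuit. -/
def Circuit.dual (C : Circuit V s) : Circuit V s where
  fn := fun i x => ¬ C.fn i fun v => ¬ x v
  gate := by
    intro i
    obtain ⟨S, T, hT, h1 | h1⟩ := C.gate i
    · refine ⟨S, T, hT, Or.inr fun x => ?_⟩
      rw [h1]
      constructor
      · intro h
        by_contra hcon
        push Not at hcon
        exact h ⟨fun v hv => hcon.1 v hv, fun j hj => hcon.2 j hj⟩
      · rintro (⟨v, hv, hx⟩ | ⟨j, hj, hx⟩) ⟨h2, h3⟩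
        · exact h2 v hv hx
        · exact hx (h3 j hj)
    · refine ⟨S, T, hT, Or.inl fun x => ?_⟩
      rw [h1]
      constructor
      · intro h
        refine ⟨fun v hv => ?_, fun j hj hx => h (Or.inr ⟨j, hj, hx⟩)⟩
        by_contra hcon
        exact h (Or.inl ⟨v, hv, hcon⟩)
      · rintro ⟨h2, h3⟩ (⟨v, hv, hx⟩ | ⟨j, hj, hx⟩)
        · exact hx (h2 v hv)
        · exact h3 j hj hx

/-- Recursive form of the quantified circuits. -/
def Alt (s : ℕ) : Bool → List ℕ → ((V → Prop) → Prop) → Prop
  | _, [] => fun f => ∃ (C : Circuit V s) (out : Fin s), ∀ x, f x ↔ C.fn out x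
  | true, q :: qs => fun f => ∃ g : (Fin q → Bool) → (V → Prop) → Prop,
      (∀ y, Alt s false qs (g y)) ∧ ∀ x, f x ↔ ∃ y, g y x
  | false, q :: qs => fun f => ∃ g : (Fin q → Bool) → (V → Prop) → Prop,
      (∀ y, Alt s true qs (g y)) ∧ ∀ x, f x ↔ ∀ y, g y x

theorem alt_of_quant : ∀ (qs : List ℕ) (b : Bool) (C : List Bool → Circuit V s)
    (out : List Bool → Fin s),
    Alt s b qs fun x => Quant b qs fun y => (C y).fn (out y) x := by
  intro qs
  induction qs with
  | nil =>
    intro b C out
    cases b <;> exact ⟨C [], out [], fun x => Iff.rfl⟩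
  | cons q qs ih =>
    intro b C out
    cases b with
    | true =>
      refine ⟨fun y x => Quant false qs fun z =>
        (C (List.ofFn y ++ z)).fn (out (List.ofFn y ++ z)) x, fun y =>
        ih false (fun z => C (List.ofFn y ++ z)) fun z => out (List.ofFn y ++ z), fun x => ?_⟩
      constructor
      · rintro ⟨y, hy, h⟩
        subst hy
        refine ⟨fun i => y.get i, ?_⟩
        show Quant false qs fun z => (C (List.ofFn (fun i => y.get i) ++ z)).fn
          (out (List.ofFn (fun i => y.get i) ++ z)) x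
        rw [List.ofFn_get]
        exact h
      · rintro ⟨y, h⟩
        exact ⟨List.ofFn y, List.length_ofFn, h⟩
    | false =>
      refine ⟨fun y x => Quant true qs fun z =>
        (C (List.ofFn y ++ z)).fn (out (List.ofFn y ++ z)) x, fun y =>
        ih true (fun z => C (List.ofFn y ++ z)) fun z => out (List.ofFn y ++ z), fun x => ?_⟩
      constructor
      · intro h y
        exact h (List.ofFn y) List.length_ofFn
      · intro h y hy
        subst hy
        have h1 : Quant true qs fun z => (C (List.ofFn (fun i => y.get i) ++ z)).fn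
          (out (List.ofFn (fun i => y.get i) ++ z)) x := h fun i => y.get i
        rw [List.ofFn_get] at h1
        exact h1

theorem Alt.congr {b : Bool} {qs : List ℕ} {f f' : (V → Prop) → Prop} (h : Alt s b qs f)
    (hf : ∀ x, f x ↔ f' x) : Alt s b qs f' := by
  have : f = f' := funext fun x => propext (hf x)
  rwa [← this]

theorem Alt.mono : ∀ {qs : List ℕ} {b : Bool} {f : (V → Prop) → Prop}, Alt s b qs f →
    ∀ {x y : V → Prop}, (∀ v, x v → y v) → f x → f y := by
  intro qs
  induction qs with
  | nil =>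
    intro b f hf x y hxy hx
    have hf' : ∃ (C : Circuit V s) (out : Fin s), ∀ x, f x ↔ C.fn out x := by
      cases b <;> exact hf
    obtain ⟨C, out, h⟩ := hf'
    rw [h] at hx ⊢
    exact C.mono hxy out hx
  | cons q qs ih =>
    intro b f hf x y hxy hx
    cases b with
    | true =>
      obtain ⟨g, hg, h⟩ := hf
      rw [h] at hx ⊢
      obtain ⟨z, hz⟩ := hx
      exact ⟨z, ih (hg z) hxy hz⟩
    | false =>
      obtain ⟨g, hg, h⟩ := hf
      rw [h] at hx ⊢
      exact fun z => ih (hg z) hxy (hx z)

theorem Alt.subst {σ : W → (V → Prop) → Prop} (hσ : IsSub σ) : ∀ {qs : List ℕ} {b : Bool}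
    {f : (W → Prop) → Prop}, Alt s b qs f → Alt s b qs fun x => f fun w => σ w x := by
  intro qs
  induction qs with
  | nil =>
    intro b f hf
    have hf' : ∃ (C : Circuit W s) (out : Fin s), ∀ x, f x ↔ C.fn out x := by
      cases b <;> exact hf
    obtain ⟨C, out, h⟩ := hf'
    have hf2 : ∃ (C : Circuit V s) (out : Fin s), ∀ x, (f fun w => σ w x) ↔ C.fn out x :=
      ⟨C.subst hσ, out, fun x => h _⟩
    cases b <;> exact hf2
  | cons q qs ih =>
    intro b f hf
    cases b with
    | true =>
      obtain ⟨g, hg, h⟩ := hf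
      exact ⟨fun y x => g y fun w => σ w x, fun y => ih (hg y), fun x => h _⟩
    | false =>
      obtain ⟨g, hg, h⟩ := hf
      exact ⟨fun y x => g y fun w => σ w x, fun y => ih (hg y), fun x => h _⟩

end Pool.Agent.H4.MH
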