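import Pool.Agent.H25.NM.Nc

/-!
The counting lemma for one level.
-/

namespace Pool.Agent.H4.MH

open Finset
open Pool.Agent.H25.NM

theorem nc_pi_le {P : Type} [Fintype P] {m : ℕ} (a : (Fin m → P) → Prop) (α : Fin m → P → Prop)
    (h : ∀ p, a p → ∀ i, α i (p i)) : nc a ≤ ∏ i, nc (α i) := by
  classical
  have h1 : (univ.filter a) ⊆ Fintype.piFinset fun i => univ.filter (α i) := by
    intro p hp
    rw [Fintype.mem_piFinset]
    intro i
    exact Finset.mem_filter.2 ⟨Finset.mem_univ _, h p (Finset.mem_filter.1 hp).2 i⟩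
  have h2 := Finset.card_le_card h1
  rw [Fintype.card_piFinset] at h2
  rw [nc_eq]
  refine h2.trans (le_of_eq (Finset.prod_congr rfl fun i _ => ?_))
  rw [nc_eq]

/-- **Counting lemma for one level.** On the product side `a y p` is an event which implies the
events `α y i (p i)`; `β y i` is an event on the other side, which is rare when `α y i` is
likely. -/
theorem level {P Ω : Type} [Fintype P] [Fintype Ω] [Nonempty P] [Nonempty Ω] {m q c : ℕ} {δ : ℝ}
    (a : (Fin q → Bool) → (Fin m → P) → Prop)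
    (α : (Fin q → Bool) → Fin m → P → Prop) (β : (Fin q → Bool) → Fin m → Ω → Prop)
    (h1 : ∀ y p, a y p → ∀ i, α y i (p i))
    (h2 : ∀ y i, (nc (β y i) : ℝ) ≤
      (2 * (1 - nc (α y i) / Fintype.card P) + δ) * Fintype.card Ω)
    (h3 : Fintype.card (Fin m → P) ≤ 2 ^ c * nc (fun p => ∃ y, a y p)) :
    (nc (fun x : Fin m × Ω => ∀ y, β y x.1 x.2) : ℝ) ≤
      (7 / 5 * (q + c) + m * δ) * Fintype.card Ω := by
  classical
  have hP : (0 : ℝ) < Fintype.card P := by exact_mod_cast Fintype.card_pos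
  have hΩ : (0 : ℝ) < Fintype.card Ω := by exact_mod_cast Fintype.card_pos
  have hcardP : Fintype.card (Fin m → P) = Fintype.card P ^ m := by
    rw [Fintype.card_fun, Fintype.card_fin]
  -- a good value of the bits
  obtain ⟨y, hy⟩ : ∃ y, Fintype.card P ^ m ≤ 2 ^ (q + c) * nc (a y) := by
    by_contra hcon
    push Not at hcon
    have h5 : ∑ y : Fin q → Bool, 2 ^ (q + c) * nc (a y) <
        ∑ _y : Fin q → Bool, Fintype.card P ^ m :=
      Finset.sum_lt_sum_of_nonempty ⟨fun _ => true, Finset.mem_univ _⟩ fun y _ => hcon y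
    rw [← Finset.mul_sum, Finset.sum_const, Finset.card_univ, Fintype.card_fun, Fintype.card_bool,
      Fintype.card_fin, smul_eq_mul] at h5
    have h6 : nc (fun p => ∃ y, a y p) ≤ ∑ y, nc (a y) := by
      have h7 := nc_bex_le (univ : Finset (Fin q → Bool)) a
      refine le_trans (nc_mono fun p hp => ?_) h7
      obtain ⟨y, hy⟩ := hp
      exact ⟨y, Finset.mem_univ _, hy⟩
    rw [hcardP] at h3
    have h8 : 2 ^ q * Fintype.card P ^ m ≤ 2 ^ (q + c) * ∑ y, nc (a y) := by
      calc 2 ^ q * Fintype.card P ^ m ≤ 2 ^ q * (2 ^ c * nc (fun p => ∃ y, a y p)) :=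
            Nat.mul_le_mul_left _ h3
        _ ≤ 2 ^ q * (2 ^ c * ∑ y, nc (a y)) :=
            Nat.mul_le_mul_left _ (Nat.mul_le_mul_left _ h6)
        _ = 2 ^ (q + c) * ∑ y, nc (a y) := by
            rw [pow_add]
            ring
    omega
  -- the factors
  set ρ : Fin m → ℝ := fun i => nc (α y i) / Fintype.card P with hρ
  have hρ0 : ∀ i, 0 ≤ ρ i := fun i => by
    show (0 : ℝ) ≤ nc (α y i) / Fintype.card P
    positivity
  have hprod : (1 : ℝ) ≤ 2 ^ (q + c) * ∏ i, ρ i := by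
    have h5 : (nc (a y) : ℝ) ≤ ∏ i, (nc (α y i) : ℝ) := by
      exact_mod_cast nc_pi_le (a y) (α y) (h1 y)
    have h6 : ∏ i, ρ i = (∏ i, (nc (α y i) : ℝ)) / (Fintype.card P : ℝ) ^ m := by
      rw [hρ, Finset.prod_div_distrib, Finset.prod_const, Finset.card_univ, Fintype.card_fin]
    have h7 : ((Fintype.card P : ℝ)) ^ m ≤ 2 ^ (q + c) * nc (a y) := by exact_mod_cast hy
    have h8 : (0 : ℝ) < (Fintype.card P : ℝ) ^ m := by positivity
    rw [h6, ← mul_div_assoc, le_div_iff₀ h8, one_mul]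
    exact h7.trans (mul_le_mul_of_nonneg_left h5 (by positivity))
  have hsum : ∑ i, (1 - ρ i) ≤ 7 / 10 * (q + c) := by
    have h5 : ∏ i, ρ i ≤ Real.exp (-∑ i, (1 - ρ i)) := by
      rw [← Finset.sum_neg_distrib, Real.exp_sum]
      refine Finset.prod_le_prod (fun i _ => hρ0 i) fun i _ => ?_
      have := Real.add_one_le_exp (-(1 - ρ i))
      linarith
    have h6 : (2 : ℝ) ^ (q + c) = Real.exp (Real.log 2 * ((q + c : ℕ) : ℝ)) := by
      rw [Real.exp_mul, Real.exp_log (by norm_num), Real.rpow_natCast]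
    have h7 : (1 : ℝ) ≤ Real.exp (Real.log 2 * ((q + c : ℕ) : ℝ) + -∑ i, (1 - ρ i)) := by
      rw [Real.exp_add, ← h6]
      exact hprod.trans (mul_le_mul_of_nonneg_left h5 (by positivity))
    have h8 : 0 ≤ Real.log 2 * ((q + c : ℕ) : ℝ) + -∑ i, (1 - ρ i) := by
      by_contra hcon
      have := Real.exp_lt_exp.2 (not_le.1 hcon)
      rw [Real.exp_zero] at this
      linarith
    have h9 : Real.log 2 ≤ 7 / 10 := by
      have := Real.log_two_lt_d9
      linarith
    have h10 : Real.log 2 * ((q + c : ℕ) : ℝ) ≤ 7 / 10 * ((q + c : ℕ) : ℝ) :=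
      mul_le_mul_of_nonneg_right h9 (Nat.cast_nonneg _)
    push_cast at h8 h10
    linarith
  -- conclusion
  have h5 : (nc (fun x : Fin m × Ω => ∀ y, β y x.1 x.2) : ℝ) ≤
      nc (fun x : Fin m × Ω => β y x.1 x.2) := by
    have : nc (fun x : Fin m × Ω => ∀ y, β y x.1 x.2) ≤
        nc (fun x : Fin m × Ω => β y x.1 x.2) := nc_mono fun x hx => hx y
    exact_mod_cast this
  refine h5.trans ?_
  rw [nc_prod (β y)]
  push_cast
  calc ∑ i, (nc (fun ω => β y i ω) : ℝ)
      ≤ ∑ i, (2 * (1 - ρ i) + δ) * Fintype.card Ω := Finset.sum_le_sum fun i _ => h2 y i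
    _ = (2 * ∑ i, (1 - ρ i) + m * δ) * Fintype.card Ω := by
        rw [← Finset.sum_mul, Finset.sum_add_distrib, ← Finset.mul_sum, Finset.sum_const,
          Finset.card_univ, Fintype.card_fin, nsmul_eq_mul]
    _ ≤ (7 / 5 * (q + c) + m * δ) * Fintype.card Ω := by
        refine mul_le_mul_of_nonneg_right ?_ hΩ.le
        linarith

end Pool.Agent.H4.MH
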