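import Mathlib

/-!
Monotone circuits on any set of variables, alternating quantifiers over blocks of bits, and the
alternating compositions of the clique function.
-/

namespace Pool.Agent.H4.MH

/-- A monotone circuit with `s` gates and the set of variables `V`: gate `i` is the AND or the OR
of a set `S` of variables and a set `T` of earlier gates. `fn i x` is the value of gate `i` when
`x` is the set of true variables. -/
structure Circuit (V : Type) (s : ℕ) where
  /-- the value of a gate -/
  fn : Fin s → (V → Prop) → Prop
  gate : ∀ i, ∃ (S : Set V) (T : Set (Fin s)), (∀ j ∈ T, j < i) ∧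
    ((∀ x, fn i x ↔ (∀ v ∈ S, x v) ∧ ∀ j ∈ T, fn j x) ∨
      (∀ x, fn i x ↔ (∃ v ∈ S, x v) ∨ ∃ j ∈ T, fn j x))

/-- `Quant b [q₁, ..., q_t] P`: the property `P` of strings of `q₁ + ... + q_t` bits preceded by
`t` alternating quantifiers, over the first `q₁` bits, the next `q₂` bits, and so on. The first
quantifier is existential if `b` is true and universal if `b` is false. -/
def Quant : Bool → List ℕ → (List Bool → Prop) → Prop
  | _, [], P => P []
  | true, q :: qs, P => ∃ y : List Bool, y.length = q ∧ Quant false qs fun z => P (y ++ z)
  | false, q :: qs, P => ∀ y : List Bool, y.length = q → Quant true qs fun z => P (y ++ z)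

/-- The variables: `m₁ ⋯ m_t` copies of the pairs of vertices. -/
def Var (n : ℕ) : List ℕ → Type
  | [] => Sym2 (Fin n)
  | m :: ms => Fin m × Var n ms

/-- `t` alternating levels of OR and AND gates of fan-in `m₁, ..., m_t`, the first one OR if `b` is
true and AND if `b` is false; below the last level stands the `k`-clique function if this level is
OR, and its dual (every set of `k` vertices contains an edge) if this level is AND. -/
def Tree (n k : ℕ) : Bool → (ms : List ℕ) → (Var n ms → Prop) → Prop
  | false, [] => fun x => ∃ A : Finset (Fin n), A.card = k ∧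
      ∀ u ∈ A, ∀ v ∈ A, u ≠ v → x s(u, v)
  | true, [] => fun x => ∀ A : Finset (Fin n), A.card = k →
      ∃ u ∈ A, ∃ v ∈ A, u ≠ v ∧ x s(u, v)
  | true, _ :: ms => fun x => ∃ i, Tree n k false ms (fun v => x (i, v))
  | false, _ :: ms => fun x => ∀ i, Tree n k true ms (fun v => x (i, v))

end Pool.Agent.H4.MH
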