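import Pool.Agent.H4.MH.Basic

/-!
Upper bounds for the number of bits with the dual prefix.
-/

namespace Pool.Agent.H4.MH

variable {V W : Type} {s : ℕ}

theorem quant_congr : ∀ (qs : List ℕ) (b : Bool) {P P' : List Bool → Prop}, (∀ y, P y ↔ P' y) →
    (Quant b qs P ↔ Quant b qs P') := by
  intro qs b P P' h
  have : P = P' := funext fun y => propext (h y)
  rw [this]

theorem quant_of_alt : ∀ (qs : List ℕ) (b : Bool) (f : (V → Prop) → Prop), Alt s b qs f →
    ∃ (C : List Bool → Circuit V s) (out : List Bool → Fin s),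
      ∀ x, f x ↔ Quant b qs fun y => (C y).fn (out y) x := by
  intro qs
  induction qs with
  | nil =>
    intro b f hf
    have hf' : ∃ (C : Circuit V s) (out : Fin s), ∀ x, f x ↔ C.fn out x := by
      cases b <;> exact hf
    obtain ⟨C, out, h⟩ := hf'
    refine ⟨fun _ => C, fun _ => out, fun x => ?_⟩
    cases b <;> exact h x
  | cons q qs ih =>
    intro b f hf
    have e1 : ∀ (y z : List Bool), y.length = q →
        (fun i : Fin q => (y ++ z).getD i.1 false) = fun i : Fin q => y.getD i.1 false := by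
      intro y z hy
      funext i
      exact List.getD_append _ _ _ _ (by rw [hy]; exact i.2)
    have e2 : ∀ (y z : List Bool), y.length = q → (y ++ z).drop q = z := by
      intro y z hy
      rw [← hy, List.drop_left]
    have e3 : ∀ y : Fin q → Bool, (fun i : Fin q => (List.ofFn y).getD i.1 false) = y := by
      intro y
      funext i
      rw [List.getD_eq_getElem _ _ (by rw [List.length_ofFn]; exact i.2), List.getElem_ofFn]
    cases b with
    | true =>
      obtain ⟨g, hg, h⟩ := hf
      choose C out hC using fun y => ih false (g y) (hg y)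
      refine ⟨fun w => C (fun i => w.getD i.1 false) (w.drop q),
        fun w => out (fun i => w.getD i.1 false) (w.drop q), fun x => ?_⟩
      have e4 : ∀ y : List Bool, y.length = q → ((Quant false qs fun z =>
          (C (fun i => (y ++ z).getD i.1 false) ((y ++ z).drop q)).fn
            (out (fun i => (y ++ z).getD i.1 false) ((y ++ z).drop q)) x) ↔
          g (fun i => y.getD i.1 false) x) := by
        intro y hy
        rw [hC]
        refine quant_congr qs false fun z => ?_
        rw [e1 y z hy, e2 y z hy]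
      rw [h]
      constructor
      · rintro ⟨y, hy⟩
        refine ⟨List.ofFn y, List.length_ofFn, ?_⟩
        have := e4 (List.ofFn y) List.length_ofFn
        rw [e3] at this
        exact this.2 hy
      · rintro ⟨y, hy, h2⟩
        exact ⟨_, (e4 y hy).1 h2⟩
    | false =>
      obtain ⟨g, hg, h⟩ := hf
      choose C out hC using fun y => ih true (g y) (hg y)
      refine ⟨fun w => C (fun i => w.getD i.1 false) (w.drop q),
        fun w => out (fun i => w.getD i.1 false) (w.drop q), fun x => ?_⟩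
      have e4 : ∀ y : List Bool, y.length = q → ((Quant true qs fun z =>
          (C (fun i => (y ++ z).getD i.1 false) ((y ++ z).drop q)).fn
            (out (fun i => (y ++ z).getD i.1 false) ((y ++ z).drop q)) x) ↔
          g (fun i => y.getD i.1 false) x) := by
        intro y hy
        rw [hC]
        refine quant_congr qs true fun z => ?_
        rw [e1 y z hy, e2 y z hy]
      rw [h]
      constructor
      · intro h2 y hy
        exact (e4 y hy).2 (h2 _)
      · intro h2 y
        have := e4 (List.ofFn y) List.length_ofFn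
        rw [e3] at this
        exact this.1 (h2 _ List.length_ofFn)

theorem exists_surj {Y : Type} [Fintype Y] [Nonempty Y] {q : ℕ} (hY : Fintype.card Y ≤ 2 ^ q) :
    ∃ e : (Fin q → Bool) → Y, Function.Surjective e := by
  classical
  have h1 : Fintype.card Y ≤ Fintype.card (Fin q → Bool) := by
    rw [Fintype.card_fun, Fintype.card_bool, Fintype.card_fin]
    exact hY
  obtain ⟨φ⟩ := Function.Embedding.nonempty_of_card_le h1
  exact ⟨Function.invFun φ, Function.invFun_surjective φ.injective⟩

theorem alt_exists {Y : Type} [Fintype Y] [Nonempty Y] {q : ℕ} (hY : Fintype.card Y ≤ 2 ^ q)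
    {qs : List ℕ} {g : Y → (V → Prop) → Prop} (hg : ∀ y, Alt s false qs (g y)) :
    Alt s true (q :: qs) fun x => ∃ y, g y x := by
  obtain ⟨e, he⟩ := exists_surj hY
  refine ⟨fun y => g (e y), fun y => hg _, fun x => ?_⟩
  constructor
  · rintro ⟨y, hy⟩
    obtain ⟨z, rfl⟩ := he y
    exact ⟨z, hy⟩
  · rintro ⟨z, hz⟩
    exact ⟨_, hz⟩

theorem alt_forall {Y : Type} [Fintype Y] [Nonempty Y] {q : ℕ} (hY : Fintype.card Y ≤ 2 ^ q)
    {qs : List ℕ} {g : Y → (V → Prop) → Prop} (hg : ∀ y, Alt s true qs (g y)) :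
    Alt s false (q :: qs) fun x => ∀ y, g y x := by
  obtain ⟨e, he⟩ := exists_surj hY
  refine ⟨fun y => g (e y), fun y => hg _, fun x => ?_⟩
  constructor
  · exact fun h z => h _
  · intro h y
    obtain ⟨z, rfl⟩ := he y
    exact h z

theorem card_bits (q : ℕ) : Fintype.card (Fin q → Bool) = 2 ^ q := by
  rw [Fintype.card_fun, Fintype.card_bool, Fintype.card_fin]

/-- more bits -/
theorem Alt.pad : ∀ {qs qs' : List ℕ} {b : Bool} {f : (V → Prop) → Prop},
    List.Forall₂ (fun q q' => q ≤ q') qs qs' → Alt s b qs f → Alt s b qs' f := by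
  intro qs
  induction qs with
  | nil =>
    intro qs' b f h hf
    cases h
    exact hf
  | cons q qs ih =>
    intro qs' b f h hf
    cases h with
    | @cons _ q' _ qs' hq hqs =>
      have hY : Fintype.card (Fin q → Bool) ≤ 2 ^ q' := by
        rw [card_bits]
        exact Nat.pow_le_pow_right (by norm_num) hq
      cases b with
      | true =>
        obtain ⟨g, hg, h⟩ := hf
        exact (alt_exists hY fun y => ih hqs (hg y)).congr fun x => (h x).symm
      | false =>
        obtain ⟨g, hg, h⟩ := hf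
        exact (alt_forall hY fun y => ih hqs (hg y)).congr fun x => (h x).symm

/-- an unused block at the beginning -/
theorem Alt.front {qs : List ℕ} {b : Bool} {f : (V → Prop) → Prop} (q : ℕ) (hf : Alt s b qs f) :
    Alt s (!b) (q :: qs) f := by
  cases b with
  | true => exact ⟨fun _ => f, fun _ => hf, fun x => ⟨fun h _ => h, fun h => h fun _ => true⟩⟩
  | false => exact ⟨fun _ => f, fun _ => hf, fun x => ⟨fun h => ⟨fun _ => true, h⟩,
      fun ⟨_, h⟩ => h⟩⟩

theorem alt_nil {b b' : Bool} {f : (V → Prop) → Prop} (hf : Alt s b [] f) : Alt s b' [] f := by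
  cases b <;> cases b' <;> exact hf

/-- an unused block at the end -/
theorem Alt.back (q : ℕ) : ∀ {qs : List ℕ} {b : Bool} {f : (V → Prop) → Prop},
    Alt s b qs f → Alt s b (qs ++ [q]) f := by
  intro qs
  induction qs with
  | nil =>
    intro b f hf
    have h1 : Alt s (!b) [] f := alt_nil hf
    have h2 := h1.front q
    rwa [Bool.not_not] at h2
  | cons p qs ih =>
    intro b f hf
    cases b with
    | true =>
      obtain ⟨g, hg, h⟩ := hf
      exact ⟨g, fun y => ih (hg y), h⟩
    | false =>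
      obtain ⟨g, hg, h⟩ := hf
      exact ⟨g, fun y => ih (hg y), h⟩

theorem alt_exists_merge {m q q' : ℕ} (hm : 0 < m) (h : m * 2 ^ q ≤ 2 ^ q') {qs : List ℕ}
    {f : Fin m → (V → Prop) → Prop} (hf : ∀ i, Alt s true (q :: qs) (f i)) :
    Alt s true (q' :: qs) fun x => ∃ i, f i x := by
  have : Nonempty (Fin m) := ⟨⟨0, hm⟩⟩
  have hf' : ∀ i, ∃ g : (Fin q → Bool) → (V → Prop) → Prop,
      (∀ y, Alt s false qs (g y)) ∧ ∀ x, f i x ↔ ∃ y, g y x := hf
  choose g hg hfg using hf'
  have hY : Fintype.card (Fin m × (Fin q → Bool)) ≤ 2 ^ q' := by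
    rw [Fintype.card_prod, card_bits, Fintype.card_fin]
    exact h
  refine (alt_exists hY (g := fun y => g y.1 y.2) fun y => hg y.1 y.2).congr fun x => ?_
  constructor
  · rintro ⟨⟨i, y⟩, hy⟩
    exact ⟨i, (hfg i x).2 ⟨y, hy⟩⟩
  · rintro ⟨i, hi⟩
    obtain ⟨y, hy⟩ := (hfg i x).1 hi
    exact ⟨⟨i, y⟩, hy⟩

theorem alt_forall_merge {m q q' : ℕ} (hm : 0 < m) (h : m * 2 ^ q ≤ 2 ^ q') {qs : List ℕ}
    {f : Fin m → (V → Prop) → Prop} (hf : ∀ i, Alt s false (q :: qs) (f i)) :
    Alt s false (q' :: qs) fun x => ∀ i, f i x := by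
  have : Nonempty (Fin m) := ⟨⟨0, hm⟩⟩
  have hf' : ∀ i, ∃ g : (Fin q → Bool) → (V → Prop) → Prop,
      (∀ y, Alt s true qs (g y)) ∧ ∀ x, f i x ↔ ∀ y, g y x := hf
  choose g hg hfg using hf'
  have hY : Fintype.card (Fin m × (Fin q → Bool)) ≤ 2 ^ q' := by
    rw [Fintype.card_prod, card_bits, Fintype.card_fin]
    exact h
  refine (alt_forall hY (g := fun y => g y.1 y.2) fun y => hg y.1 y.2).congr fun x => ?_
  constructor
  · intro h2 i
    exact (hfg i x).2 fun y => h2 (i, y)
  · rintro h2 ⟨i, y⟩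
    exact (hfg i x).1 (h2 i) y

/-- Exchange of two quantifiers. -/
theorem alt_swap_false {m p q q' r : ℕ} (hm : 0 < m) (hq : m * p ≤ q) {qs : List ℕ}
    (h : m * 2 ^ q' ≤ 2 ^ r)
    {f : Fin m → (V → Prop) → Prop} (hf : ∀ i, Alt s false (p :: q' :: qs) (f i)) :
    Alt s false (q :: r :: qs) fun x => ∃ i, f i x := by
  have hf' : ∀ i, ∃ g : (Fin p → Bool) → (V → Prop) → Prop,
      (∀ y, Alt s true (q' :: qs) (g y)) ∧ ∀ x, f i x ↔ ∀ y, g y x := hf
  choose g hg hfg using hf'
  have hY : Fintype.card (Fin m → (Fin p → Bool)) ≤ 2 ^ q := by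
    rw [Fintype.card_fun, card_bits, Fintype.card_fin, ← pow_mul, mul_comm]
    exact Nat.pow_le_pow_right (by norm_num) hq
  refine (alt_forall hY (g := fun φ x => ∃ i, g i (φ i) x) fun φ =>
    alt_exists_merge hm h fun i => hg i (φ i)).congr fun x => ?_
  constructor
  · intro h2
    by_contra hcon
    push Not at hcon
    have h3 : ∀ i, ∃ y, ¬ g i y x := by
      intro i
      have := hcon i
      rw [hfg, not_forall] at this
      exact this
    choose φ hφ using h3
    obtain ⟨i, hi⟩ := h2 φ
    exact hφ i hi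
  · rintro ⟨i, hi⟩ φ
    exact ⟨i, (hfg i x).1 hi (φ i)⟩

theorem alt_swap_true {m p q q' r : ℕ} (hm : 0 < m) (hq : m * p ≤ q) {qs : List ℕ}
    (h : m * 2 ^ q' ≤ 2 ^ r)
    {f : Fin m → (V → Prop) → Prop} (hf : ∀ i, Alt s true (p :: q' :: qs) (f i)) :
    Alt s true (q :: r :: qs) fun x => ∀ i, f i x := by
  have hf' : ∀ i, ∃ g : (Fin p → Bool) → (V → Prop) → Prop,
      (∀ y, Alt s false (q' :: qs) (g y)) ∧ ∀ x, f i x ↔ ∃ y, g y x := hf
  choose g hg hfg using hf'
  have hY : Fintype.card (Fin m → (Fin p → Bool)) ≤ 2 ^ q := by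
    rw [Fintype.card_fun, card_bits, Fintype.card_fin, ← pow_mul, mul_comm]
    exact Nat.pow_le_pow_right (by norm_num) hq
  refine (alt_exists hY (g := fun φ x => ∀ i, g i (φ i) x) fun φ =>
    alt_forall_merge hm h fun i => hg i (φ i)).congr fun x => ?_
  constructor
  · rintro ⟨φ, hφ⟩ i
    exact (hfg i x).2 ⟨φ i, hφ i⟩
  · intro h2
    choose φ hφ using fun i => (hfg i x).1 (h2 i)
    exact ⟨φ, hφ⟩

/-- the circuit with one AND gate -/
def andGate (S : Set V) : Circuit V 1 where
  fn := fun _ x => ∀ v ∈ S, x v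
  gate := fun _ => ⟨S, ∅, fun j hj => absurd hj (Set.notMem_empty j), Or.inl fun _ =>
    ⟨fun h => ⟨h, fun j hj => absurd hj (Set.notMem_empty j)⟩, fun h => h.1⟩⟩

/-- the circuit with one OR gate -/
def orGate (S : Set V) : Circuit V 1 where
  fn := fun _ x => ∃ v ∈ S, x v
  gate := fun _ => ⟨S, ∅, fun j hj => absurd hj (Set.notMem_empty j), Or.inr fun _ =>
    ⟨fun h => Or.inl h, fun h => h.resolve_right fun ⟨j, hj, _⟩ =>
      absurd hj (Set.notMem_empty j)⟩⟩

theorem alt_and (p : Prop) (S : Set V) (b : Bool) :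
    Alt 1 b [] fun x => p ∧ ∀ v ∈ S, x v := by
  have h : ∃ (C : Circuit V 1) (out : Fin 1), ∀ x, (p ∧ ∀ v ∈ S, x v) ↔ C.fn out x := by
    by_cases hp : p
    · exact ⟨andGate S, 0, fun x => ⟨fun h => h.2, fun h => ⟨hp, h⟩⟩⟩
    · exact ⟨orGate ∅, 0, fun x => ⟨fun h => absurd h.1 hp, fun ⟨v, hv, _⟩ =>
        absurd hv (Set.notMem_empty v)⟩⟩
  cases b <;> exact h

theorem alt_or (p : Prop) (S : Set V) (b : Bool) :
    Alt 1 b [] fun x => p ∨ ∃ v ∈ S, x v := by
  have h : ∃ (C : Circuit V 1) (out : Fin 1), ∀ x, (p ∨ ∃ v ∈ S, x v) ↔ C.fn out x := by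
    by_cases hp : p
    · exact ⟨andGate ∅, 0, fun x => ⟨fun _ v hv => absurd hv (Set.notMem_empty v),
        fun _ => Or.inl hp⟩⟩
    · exact ⟨orGate S, 0, fun x => ⟨fun h => h.resolve_left hp, Or.inr⟩⟩
  cases b <;> exact h

/-- Every monotone function. -/
theorem alt_mono [Fintype V] {q : ℕ} (hq : Fintype.card V ≤ q) {f : (V → Prop) → Prop}
    (hf : ∀ x y : V → Prop, (∀ v, x v → y v) → f x → f y) (b : Bool) : Alt 1 b [q] f := by
  classical
  have hY : Fintype.card (V → Bool) ≤ 2 ^ q := by
    rw [Fintype.card_fun, Fintype.card_bool]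
    exact Nat.pow_le_pow_right (by norm_num) hq
  cases b with
  | true =>
    refine (alt_exists hY (g := fun z x => (f fun v => z v = true) ∧
      ∀ v ∈ {v | z v = true}, x v) fun z => alt_and _ _ _).congr fun x => ?_
    constructor
    · rintro ⟨z, h1, h2⟩
      exact hf _ _ (fun v hv => h2 v hv) h1
    · intro h1
      refine ⟨fun v => decide (x v), ?_, fun v hv => of_decide_eq_true hv⟩
      exact hf _ _ (fun v hv => decide_eq_true hv) h1
  | false =>
    refine (alt_forall hY (g := fun z x => (f fun v => z v = true) ∨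
      ∃ v ∈ {v | z v = false}, x v) fun z => alt_or _ _ _).congr fun x => ?_
    constructor
    · intro h1
      rcases h1 fun v => decide (x v) with h2 | ⟨v, hv, h2⟩
      · exact hf _ _ (fun v hv => of_decide_eq_true hv) h2
      · exact absurd h2 (of_decide_eq_false hv)
    · intro h1 z
      by_cases h2 : ∀ v, x v → z v = true
      · exact Or.inl (hf _ _ h2 h1)
      · push Not at h2
        obtain ⟨v, hv, h3⟩ := h2
        exact Or.inr ⟨v, by simpa using h3, hv⟩

/-- restriction to a copy -/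
theorem isSub_copy {n m : ℕ} {ms : List ℕ} (i : Fin m) :
    IsSub fun (v : Var n ms) (x : Var n (m :: ms) → Prop) => x (i, v) :=
  fun v => Or.inl ⟨(i, v), fun _ => Iff.rfl⟩

theorem tree_own {n k B : ℕ} (hn : n ≤ B) : ∀ (ms : List ℕ) (b : Bool), ms ≠ [] →
    (∀ m ∈ ms, 0 < m) → (∀ m ∈ ms, m ≤ 2 ^ B) →
    Alt 1 b (List.replicate ms.length (2 * B)) (Tree n k b ms) := by
  classical
  intro ms
  induction ms with
  | nil => intro b h; exact absurd rfl h
  | cons m ms ih =>
    intro b _ h0 hB
    have hm0 := h0 m List.mem_cons_self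
    have hmB := hB m List.mem_cons_self
    have : Nonempty (Fin m) := ⟨⟨0, hm0⟩⟩
    rcases ms with _ | ⟨m', ms⟩
    · have hY : Fintype.card (Fin m × Finset (Fin n)) ≤ 2 ^ (2 * B) := by
        rw [Fintype.card_prod, Fintype.card_finset, Fintype.card_fin, Fintype.card_fin, two_mul,
          pow_add]
        exact Nat.mul_le_mul hmB (Nat.pow_le_pow_right (by norm_num) hn)
      cases b with
      | true =>
        refine (alt_exists hY (g := fun y (x : Var n [m] → Prop) => (y.2.card = k) ∧
          ∀ v ∈ {v : Var n [m] | ∃ u ∈ y.2, ∃ w ∈ y.2, u ≠ w ∧ v = (y.1, s(u, w))}, x v)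
          fun y => alt_and _ _ _).congr fun x => ?_
        constructor
        · rintro ⟨⟨i, A⟩, h1, h2⟩
          exact ⟨i, A, h1, fun u hu w hw huw => h2 (i, s(u, w)) ⟨u, hu, w, hw, huw, rfl⟩⟩
        · rintro ⟨i, A, h1, h2⟩
          refine ⟨(i, A), h1, ?_⟩
          rintro v ⟨u, hu, w, hw, huw, rfl⟩
          exact h2 u hu w hw huw
      | false =>
        refine (alt_forall hY (g := fun y (x : Var n [m] → Prop) => (y.2.card ≠ k) ∨
          ∃ v ∈ {v : Var n [m] | ∃ u ∈ y.2, ∃ w ∈ y.2, u ≠ w ∧ v = (y.1, s(u, w))}, x v)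
          fun y => alt_or _ _ _).congr fun x => ?_
        constructor
        · intro h1 i A hA
          rcases h1 (i, A) with h2 | ⟨v, ⟨u, hu, w, hw, huw, rfl⟩, h2⟩
          · exact absurd hA h2
          · exact ⟨u, hu, w, hw, huw, h2⟩
        · rintro h1 ⟨i, A⟩
          by_cases hA : A.card = k
          · obtain ⟨u, hu, w, hw, huw, h2⟩ := h1 i A hA
            exact Or.inr ⟨(i, s(u, w)), ⟨u, hu, w, hw, huw, rfl⟩, h2⟩
          · exact Or.inl hA
    · have hY : Fintype.card (Fin m) ≤ 2 ^ (2 * B) := by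
        rw [Fintype.card_fin]
        exact hmB.trans (Nat.pow_le_pow_right (by norm_num) (by omega))
      have h1 := fun b' => ih b' (List.cons_ne_nil _ _)
        (fun a ha => h0 a (List.mem_cons_of_mem _ ha)) fun a ha => hB a (List.mem_cons_of_mem _ ha)
      cases b with
      | true =>
        exact alt_exists hY (g := fun i (x : Var n (m :: m' :: ms) → Prop) =>
          Tree n k false (m' :: ms) fun v => x (i, v)) fun i => (h1 false).subst (isSub_copy i)
      | false =>
        exact alt_forall hY (g := fun i (x : Var n (m :: m' :: ms) → Prop) =>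
          Tree n k true (m' :: ms) fun v => x (i, v)) fun i => (h1 true).subst (isSub_copy i)

end Pool.Agent.H4.MH
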