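import Pool.Agent.H4.MH.Dual

/-!
The dual prefix with one long block.
-/

namespace Pool.Agent.H4.MH

instance varFintype (n : ℕ) : ∀ ms : List ℕ, Fintype (Var n ms)
  | [] => inferInstanceAs (Fintype (Sym2 (Fin n)))
  | m :: ms => @instFintypeProd (Fin m) (Var n ms) _ (varFintype n ms)

theorem card_var_cons (n m : ℕ) (ms : List ℕ) :
    Fintype.card (Var n (m :: ms)) = m * Fintype.card (Var n ms) := by
  have h := @Fintype.card_prod (Fin m) (Var n ms) _ _
  rw [Fintype.card_fin] at h
  exact h

theorem card_var_nil (n : ℕ) : Fintype.card (Var n []) = Fintype.card (Sym2 (Fin n)) := rfl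

theorem tree_mono (n k : ℕ) : ∀ (ms : List ℕ) (b : Bool) (x y : Var n ms → Prop),
    (∀ v, x v → y v) → Tree n k b ms x → Tree n k b ms y := by
  intro ms
  induction ms with
  | nil =>
    intro b x y h
    cases b with
    | true =>
      intro h1 A hA
      obtain ⟨u, hu, v, hv, huv, h2⟩ := h1 A hA
      exact ⟨u, hu, v, hv, huv, h _ h2⟩
    | false => exact fun ⟨A, hA, h1⟩ => ⟨A, hA, fun u hu v hv huv => h _ (h1 u hu v hv huv)⟩
  | cons m ms ih =>
    intro b x y h
    cases b with
    | true => exact fun ⟨i, hi⟩ => ⟨i, ih false _ _ (fun v => h (i, v)) hi⟩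
    | false => exact fun h1 i => ih true _ _ (fun v => h (i, v)) (h1 i)

theorem forall2_replicate {a : ℕ} : ∀ (l : ℕ) (qs : List ℕ), qs.length = l → (∀ q ∈ qs, a ≤ q) →
    List.Forall₂ (fun q q' => q ≤ q') (List.replicate l a) qs := by
  intro l
  induction l with
  | zero =>
    intro qs h _
    rw [List.length_eq_zero_iff] at h
    subst h
    exact List.Forall₂.nil
  | succ l ih =>
    intro qs h h1
    rcases qs with _ | ⟨q, qs⟩
    · exact absurd h (by simp)
    · rw [List.replicate_succ]
      refine List.Forall₂.cons (h1 q List.mem_cons_self) (ih qs ?_ fun q' hq' =>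
        h1 q' (List.mem_cons_of_mem _ hq'))
      rw [List.length_cons] at h
      omega

theorem mul_pow_le {m B q r : ℕ} (hm : m ≤ 2 ^ B) (h : B + q ≤ r) : m * 2 ^ q ≤ 2 ^ r := by
  calc m * 2 ^ q ≤ 2 ^ B * 2 ^ q := Nat.mul_le_mul_right _ hm
    _ = 2 ^ (B + q) := (pow_add _ _ _).symm
    _ ≤ 2 ^ r := Nat.pow_le_pow_right (by norm_num) h

theorem tree_dual {n k B : ℕ} (hn : n ≤ B) (hN : Fintype.card (Sym2 (Fin n)) ≤ B) :
    ∀ (ms qs : List ℕ) (b : Bool), ms.length = qs.length →
      (∀ m ∈ ms, 0 < m) → (∀ m ∈ ms, m ≤ 2 ^ B) →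
      ((∃ m ms' q qs', ms = m :: ms' ∧ qs = q :: qs' ∧ 2 * B * m ≤ q ∧ ∀ q ∈ qs', 3 * B ≤ q) ∨
      (∃ m ms' q qs', ms = m :: ms' ∧ qs = q :: qs' ∧ (∀ q ∈ qs', 3 * B ≤ q) ∧
        ∃ p ∈ ms'.zip qs', (2 * p.1 + 1) * B ≤ p.2)) →
      Alt 1 (!b) qs (Tree n k b ms) := by
  classical
  intro ms
  induction ms with
  | nil =>
    rintro qs b _ _ _ (⟨m, ms', q, qs', h, _⟩ | ⟨m, ms', q, qs', h, _⟩)
    · exact absurd h (List.cons_ne_nil _ _).symm
    · exact absurd h (List.cons_ne_nil _ _).symm
  | cons m ms ih =>
    rintro qs b hlen h0 hB h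
    have hm0 := h0 m List.mem_cons_self
    have hmB := hB m List.mem_cons_self
    have hcop := fun i : Fin m => isSub_copy (n := n) (ms := ms) i
    rcases h with ⟨m', ms', q, qs', h1, rfl, h2, h3⟩ | ⟨m', ms', q, qs', h1, rfl, h3, p, hp, h4⟩
    · obtain ⟨rfl, rfl⟩ := List.cons_eq_cons.1 h1
      rw [List.length_cons, List.length_cons] at hlen
      rcases ms with _ | ⟨m₂, ms⟩
      · rcases qs' with _ | ⟨q₂, qs'⟩
        · refine alt_mono ?_ (tree_mono n k _ _) _
          rw [card_var_cons, card_var_nil]
          refine le_trans ?_ h2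
          calc m * Fintype.card (Sym2 (Fin n)) ≤ m * B := Nat.mul_le_mul_left _ hN
            _ ≤ 2 * B * m := by
              rw [show 2 * B * m = m * B + m * B from by ring]
              exact Nat.le_add_right _ _
        · simp at hlen
      · rcases qs' with _ | ⟨q₂, qs'⟩
        · simp at hlen
        · have hlen' : qs'.length = ms.length := by
            simp only [List.length_cons] at hlen
            omega
          have hown : ∀ b', Alt 1 b' (2 * B :: 2 * B :: List.replicate ms.length (2 * B))
              (Tree n k b' (m₂ :: ms)) := by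
            intro b'
            have h5 := (tree_own (k := k) hn (m₂ :: ms) b' (List.cons_ne_nil _ _)
              (fun a ha => h0 a (List.mem_cons_of_mem _ ha))
              fun a ha => hB a (List.mem_cons_of_mem _ ha)).back (2 * B)
            rw [← List.replicate_succ', List.length_cons, List.replicate_succ,
              List.replicate_succ] at h5
            exact h5
          have hpad : List.Forall₂ (fun q q' => q ≤ q')
              (q :: 3 * B :: List.replicate ms.length (2 * B)) (q :: q₂ :: qs') := by
            refine List.Forall₂.cons le_rfl (List.Forall₂.cons (h3 q₂ List.mem_cons_self)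
              (forall2_replicate _ _ hlen' fun a ha => ?_))
            have := h3 a (List.mem_cons_of_mem _ ha)
            omega
          have hq : m * (2 * B) ≤ q := by
            rw [mul_comm]
            exact h2
          have hr : m * 2 ^ (2 * B) ≤ 2 ^ (3 * B) := mul_pow_le hmB (by omega)
          refine Alt.pad hpad ?_
          cases b with
          | true =>
            exact alt_swap_false hm0 hq hr (f := fun i (x : Var n (m :: m₂ :: ms) → Prop) =>
              Tree n k false (m₂ :: ms) fun v => x (i, v)) fun i => (hown false).subst (hcop i)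
          | false =>
            exact alt_swap_true hm0 hq hr (f := fun i (x : Var n (m :: m₂ :: ms) → Prop) =>
              Tree n k true (m₂ :: ms) fun v => x (i, v)) fun i => (hown true).subst (hcop i)
    · obtain ⟨rfl, rfl⟩ := List.cons_eq_cons.1 h1
      rcases ms with _ | ⟨m₂, ms⟩
      · simp at hp
      · rcases qs' with _ | ⟨q₂, qs'⟩
        · simp at hp
        · have hlen' : (m₂ :: ms).length = ((q₂ - B) :: qs').length := by
            simp only [List.length_cons] at hlen ⊢
            omega
          have h5 : ∀ b', Alt 1 (!b') ((q₂ - B) :: qs') (Tree n k b' (m₂ :: ms)) := by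
            intro b'
            refine ih ((q₂ - B) :: qs') b' hlen'
              (fun a ha => h0 a (List.mem_cons_of_mem _ ha))
              (fun a ha => hB a (List.mem_cons_of_mem _ ha)) ?_
            rw [List.zip_cons_cons, List.mem_cons] at hp
            rcases hp with rfl | hp
            · refine Or.inl ⟨m₂, ms, q₂ - B, qs', rfl, rfl, ?_,
                fun a ha => h3 a (List.mem_cons_of_mem _ ha)⟩
              have h6 : (2 * m₂ + 1) * B = 2 * B * m₂ + B := by ring
              have h7 : (2 * m₂ + 1) * B ≤ q₂ := h4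
              omega
            · exact Or.inr ⟨m₂, ms, q₂ - B, qs', rfl, rfl,
                fun a ha => h3 a (List.mem_cons_of_mem _ ha), p, hp, h4⟩
          have hq2 := h3 q₂ List.mem_cons_self
          have hr : m * 2 ^ (q₂ - B) ≤ 2 ^ q₂ := mul_pow_le hmB (by omega)
          cases b with
          | true =>
            exact (alt_exists_merge hm0 hr (f := fun i (x : Var n (m :: m₂ :: ms) → Prop) =>
              Tree n k false (m₂ :: ms) fun v => x (i, v))
              fun i => (h5 false).subst (hcop i)).front q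
          | false =>
            exact (alt_forall_merge hm0 hr (f := fun i (x : Var n (m :: m₂ :: ms) → Prop) =>
              Tree n k true (m₂ :: ms) fun v => x (i, v))
              fun i => (h5 true).subst (hcop i)).front q

/-- **Upper bound for the dual prefix.** -/
theorem dual_upper {n k B : ℕ} (hB1 : 1 ≤ B) (hn : n ≤ B) (hN : Fintype.card (Sym2 (Fin n)) ≤ B)
    {ms qs : List ℕ} (b : Bool) (hlen : ms.length = qs.length)
    (h0 : ∀ m ∈ ms, 0 < m) (hB : ∀ m ∈ ms, m ≤ 2 ^ B) (h3 : ∀ q ∈ qs, 3 * B ≤ q)
    (h : ∃ p ∈ ms.zip qs, 3 * B * p.1 ≤ p.2) :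
    ∃ (C : List Bool → Circuit (Var n ms) 1),
      ∀ x, Tree n k b ms x ↔ Quant (!b) qs fun y => (C y).fn 0 x := by
  obtain ⟨p, hp, h4⟩ := h
  have key : Alt 1 (!b) qs (Tree n k b ms) := by
    refine tree_dual hn hN ms qs b hlen h0 hB ?_
    rcases ms with _ | ⟨m, ms⟩
    · simp at hp
    · rcases qs with _ | ⟨q, qs⟩
      · simp at hp
      · rw [List.zip_cons_cons, List.mem_cons] at hp
        rcases hp with rfl | hp
        · refine Or.inl ⟨m, ms, q, qs, rfl, rfl, ?_, fun a ha => h3 a (List.mem_cons_of_mem _ ha)⟩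
          have h5 : 3 * B * m ≤ q := h4
          have h6 : 2 * B * m ≤ 3 * B * m := Nat.mul_le_mul_right _ (by omega)
          omega
        · refine Or.inr ⟨m, ms, q, qs, rfl, rfl, fun a ha => h3 a (List.mem_cons_of_mem _ ha),
            p, hp, le_trans ?_ h4⟩
          have h5 : 0 < p.1 := by
            have h6 : (p.1, p.2) ∈ ms.zip qs := hp
            exact h0 _ (List.mem_cons_of_mem _ (List.of_mem_zip h6).1)
          calc (2 * p.1 + 1) * B ≤ (3 * p.1) * B := Nat.mul_le_mul_right _ (by omega)
            _ = 3 * B * p.1 := by ring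
  obtain ⟨C, out, hC⟩ := quant_of_alt qs (!b) _ key
  refine ⟨C, fun x => ?_⟩
  rw [hC]
  refine quant_congr qs (!b) fun y => ?_
  rw [Subsingleton.elim (out y) 0]

end Pool.Agent.H4.MH
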