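import Pool.Agent.H4.MH.Dual2

/-!
The dual prefix with a shorter first block, on average.
-/

namespace Pool.Agent.H4.MH

open Finset

/-- restriction of the copies -/
theorem isSub_sel {n m m' : ℕ} {ms : List ℕ} (e : Fin m' → Fin m) :
    IsSub fun (v : Var n (m' :: ms)) (x : Var n (m :: ms) → Prop) => x (e v.1, v.2) :=
  fun v => Or.inl ⟨(e v.1, v.2), fun _ => Iff.rfl⟩

theorem exists_block {r m m' a : ℕ} (h0 : 0 < m) (hm : m ≤ 2 ^ a * m') (j : Fin r → Fin m) :
    ∃ e : Fin m' → Fin m, r ≤ 2 ^ a * {i | ∃ t, e t = j i}.ncard := by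
  classical
  have hm' : 0 < m' := by
    rcases Nat.eq_zero_or_pos m' with h | h
    · subst h
      omega
    · exact h
  -- the blocks
  let e : Fin (2 ^ a) → Fin m' → Fin m := fun c t => ⟨min (c.1 * m' + t.1) (m - 1), by omega⟩
  have he : ∀ x : Fin m, ∃ c t, e c t = x := by
    intro x
    have hc : x.1 / m' < 2 ^ a := by
      rw [Nat.div_lt_iff_lt_mul hm']
      exact lt_of_lt_of_le x.2 hm
    refine ⟨⟨x.1 / m', hc⟩, ⟨x.1 % m', Nat.mod_lt _ hm'⟩, Fin.ext ?_⟩
    show min (x.1 / m' * m' + x.1 % m') (m - 1) = x.1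
    have h1 := Nat.div_add_mod' x.1 m'
    have h2 := x.2
    rw [h1]
    omega
  by_contra hcon
  push Not at hcon
  have h1 : ∑ c : Fin (2 ^ a), 2 ^ a * {i | ∃ t, e c t = j i}.ncard < ∑ _c : Fin (2 ^ a), r :=
    Finset.sum_lt_sum_of_nonempty ⟨⟨0, by positivity⟩, Finset.mem_univ _⟩ fun c _ => hcon (e c)
  rw [← Finset.mul_sum, Finset.sum_const, Finset.card_univ, Fintype.card_fin, smul_eq_mul] at h1
  have h2 : r ≤ ∑ c : Fin (2 ^ a), {i | ∃ t, e c t = j i}.ncard := by
    have h3 : (univ : Finset (Fin r)) ⊆ (univ : Finset (Fin (2 ^ a))).biUnion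
        fun c => univ.filter fun i => ∃ t, e c t = j i := by
      intro i _
      obtain ⟨c, t, hct⟩ := he (j i)
      exact Finset.mem_biUnion.2 ⟨c, Finset.mem_univ _,
        Finset.mem_filter.2 ⟨Finset.mem_univ _, t, hct⟩⟩
    have h4 := (Finset.card_le_card h3).trans Finset.card_biUnion_le
    rw [Finset.card_univ, Fintype.card_fin] at h4
    refine h4.trans (le_of_eq (Finset.sum_congr rfl fun c _ => ?_))
    rw [← Set.ncard_coe_finset]
    congr 1
    ext i
    simp
  have h5 := Nat.mul_le_mul_left (2 ^ a) h2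
  omega

theorem ncard_univ_fin (r : ℕ) : (Set.univ : Set (Fin r)).ncard = r := by
  rw [Set.ncard_univ, Nat.card_eq_fintype_card, Fintype.card_fin]

/-- **Upper bound for the dual prefix, on average.** -/
theorem avg_upper {n k B : ℕ} (hB1 : 1 ≤ B) (hn : n ≤ B)
    (hN : Fintype.card (Sym2 (Fin n)) ≤ B) (b : Bool) (m : ℕ) (ms : List ℕ)
    (h0 : ∀ a ∈ m :: ms, 0 < a) (hB : ∀ a ∈ m :: ms, a ≤ 2 ^ B) {a m' q : ℕ} {qs : List ℕ}
    (hlen : ms.length = qs.length) (h3 : ∀ p ∈ q :: qs, 3 * B ≤ p) (hm' : m ≤ 2 ^ a * m')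
    (hq : 3 * B * m' ≤ q) {r u : ℕ} (pos : Fin r → Var n (m :: ms) → Prop)
    (neg : Fin u → Var n (m :: ms) → Prop) (hpos : ∀ i, Tree n k b (m :: ms) (pos i))
    (hneg : ∀ j, ¬ Tree n k b (m :: ms) (neg j)) :
    ∃ C : List Bool → Circuit (Var n (m :: ms)) 1,
      r ≤ 2 ^ a * {i | Quant (!b) (q :: qs) fun y => (C y).fn 0 (pos i)}.ncard ∧
      u ≤ 2 ^ a * {j | ¬ Quant (!b) (q :: qs) fun y => (C y).fn 0 (neg j)}.ncard := by
  have hm0 := h0 m List.mem_cons_self
  have h1a : 1 ≤ 2 ^ a := Nat.one_le_two_pow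
  rcases le_or_gt m m' with hmm | hmm
  · -- the exact formula
    obtain ⟨C, hC⟩ := dual_upper (k := k) hB1 hn hN (ms := m :: ms) (qs := q :: qs) b
      (by rw [List.length_cons, List.length_cons, hlen]) h0 hB h3
      ⟨(m, q), by rw [List.zip_cons_cons]; exact List.mem_cons_self,
        (Nat.mul_le_mul_left _ hmm).trans hq⟩
    refine ⟨C, ?_, ?_⟩
    · have h5 : {i | Quant (!b) (q :: qs) fun y => (C y).fn 0 (pos i)} = Set.univ :=
        Set.eq_univ_of_forall fun i => (hC _).1 (hpos i)
      rw [h5, ncard_univ_fin]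
      exact Nat.le_mul_of_pos_left _ h1a
    · have h5 : {j | ¬ Quant (!b) (q :: qs) fun y => (C y).fn 0 (neg j)} = Set.univ :=
        Set.eq_univ_of_forall fun j h => hneg j ((hC _).2 h)
      rw [h5, ncard_univ_fin]
      exact Nat.le_mul_of_pos_left _ h1a
  · have hm0' : 0 < m' := by
      rcases Nat.eq_zero_or_pos m' with h | h
      · subst h
        omega
      · exact h
    -- the formula for `m'` copies
    have hform : ∀ e : Fin m' → Fin m, ∃ C : List Bool → Circuit (Var n (m :: ms)) 1, ∀ x,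
        (Tree n k b (m' :: ms) fun v => x (e v.1, v.2)) ↔
          Quant (!b) (q :: qs) fun y => (C y).fn 0 x := by
      intro e
      obtain ⟨C, hC⟩ := dual_upper (k := k) hB1 hn hN (ms := m' :: ms) (qs := q :: qs) b
        (by rw [List.length_cons, List.length_cons, hlen])
        (fun p hp => by
          rcases List.mem_cons.1 hp with rfl | hp
          · exact hm0'
          · exact h0 p (List.mem_cons_of_mem _ hp))
        (fun p hp => by
          rcases List.mem_cons.1 hp with rfl | hp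
          · exact hmm.le.trans (hB m List.mem_cons_self)
          · exact hB p (List.mem_cons_of_mem _ hp)) h3
        ⟨(m', q), by rw [List.zip_cons_cons]; exact List.mem_cons_self, hq⟩
      exact ⟨fun y => (C y).subst (isSub_sel e), fun x => hC _⟩
    cases b with
    | true =>
      choose j hj using hpos
      obtain ⟨e, he⟩ := exists_block hm0 hm' j
      obtain ⟨C, hC⟩ := hform e
      refine ⟨C, he.trans (Nat.mul_le_mul_left _ (Set.ncard_le_ncard ?_ (Set.toFinite _))), ?_⟩
      · rintro i ⟨t, ht⟩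
        refine (hC _).1 ⟨t, ?_⟩
        show Tree n k false ms fun v => pos i (e t, v)
        rw [ht]
        exact hj i
      · have h5 : {j | ¬ Quant (!true) (q :: qs) fun y => (C y).fn 0 (neg j)} = Set.univ := by
          refine Set.eq_univ_of_forall fun j h => hneg j ?_
          obtain ⟨t, ht⟩ := (hC _).2 h
          exact ⟨e t, ht⟩
        rw [h5, ncard_univ_fin]
        exact Nat.le_mul_of_pos_left _ h1a
    | false =>
      have hneg' : ∀ j : Fin u, ∃ i : Fin m, ¬ Tree n k true ms fun v => neg j (i, v) := by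
        intro j
        have h5 : ¬ ∀ i : Fin m, Tree n k true ms fun v => neg j (i, v) := hneg j
        exact not_forall.1 h5
      choose j hj using hneg'
      obtain ⟨e, he⟩ := exists_block hm0 hm' j
      obtain ⟨C, hC⟩ := hform e
      refine ⟨C, ?_, he.trans (Nat.mul_le_mul_left _ (Set.ncard_le_ncard ?_ (Set.toFinite _)))⟩
      · have h5 : {i | Quant (!false) (q :: qs) fun y => (C y).fn 0 (pos i)} = Set.univ :=
          Set.eq_univ_of_forall fun i => (hC _).1 fun t => hpos i (e t)
        rw [h5, ncard_univ_fin]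
        exact Nat.le_mul_of_pos_left _ h1a
      · rintro i ⟨t, ht⟩ h6
        have h7 : Tree n k true ms fun v => neg i (e t, v) := (hC _).2 h6 t
        rw [ht] at h7
        exact hj i h7

end Pool.Agent.H4.MH
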