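import Pool.Agent.H4.MH.Base
import Pool.Agent.H25.NP.Main

/-!
The base case with explicit parameters.
-/

namespace Pool.Agent.H4.MH

open Finset
open Pool.Agent.H25.NM
open Pool.Agent.H25.NP (two_mul_pred_pow blockHyp_dense nz card_nz two_choose_two)

theorem clique_count_pow {n k l Q e : ℕ} (hQ : 1 ≤ Q) (hn : n ≤ 2 ^ l)
    (hk : Q * (k * l + e) ≤ k.choose 2) :
    2 ^ e * n ^ k * (Q - 1) ^ (k.choose 2) ≤ Q ^ (k.choose 2) := by
  have h2 : 2 ^ (k * l + e) * (Q - 1) ^ (Q * (k * l + e)) ≤ Q ^ (Q * (k * l + e)) := by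
    rw [pow_mul, pow_mul, ← mul_pow]
    exact Nat.pow_le_pow_left (two_mul_pred_pow Q hQ) _
  have h3 : n ^ k ≤ 2 ^ (k * l) := by
    calc n ^ k ≤ (2 ^ l) ^ k := Nat.pow_le_pow_left hn _
      _ = 2 ^ (k * l) := by rw [← pow_mul, mul_comm]
  obtain ⟨c, hc⟩ := Nat.exists_eq_add_of_le hk
  rw [hc, pow_add, pow_add]
  calc 2 ^ e * n ^ k * ((Q - 1) ^ (Q * (k * l + e)) * (Q - 1) ^ c)
      = 2 ^ e * n ^ k * (Q - 1) ^ (Q * (k * l + e)) * (Q - 1) ^ c := by ring
    _ ≤ 2 ^ e * 2 ^ (k * l) * (Q - 1) ^ (Q * (k * l + e)) * Q ^ c := by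
        refine Nat.mul_le_mul (Nat.mul_le_mul_right _ (Nat.mul_le_mul_left _ h3))
          (Nat.pow_le_pow_left (by omega) _)
    _ = 2 ^ (k * l + e) * (Q - 1) ^ (Q * (k * l + e)) * Q ^ c := by
        rw [pow_add]
        ring
    _ ≤ Q ^ (Q * (k * l + e)) * Q ^ c := Nat.mul_le_mul_right _ h2

theorem card_sym2_le (n : ℕ) : 2 * Fintype.card (Sym2 (Fin n)) = n * (n + 1) := by
  rw [Sym2.card, Fintype.card_fin, Nat.choose_two_right, Nat.add_sub_cancel]
  have h := Nat.even_mul_succ_self n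
  obtain ⟨c, hc⟩ := h
  have h1 : (n + 1) * n = c + c := by rw [mul_comm]; exact hc
  rw [h1]
  omega

theorem sq_le_eight {l : ℕ} (hl : 2 ≤ l) : (2 * l + 1) ^ 2 ≤ 2 ^ (3 * l) := by
  induction l, hl using Nat.le_induction with
  | base => norm_num
  | succ l hl ih =>
    calc (2 * (l + 1) + 1) ^ 2 ≤ 8 * (2 * l + 1) ^ 2 := by nlinarith
      _ ≤ 8 * 2 ^ (3 * l) := Nat.mul_le_mul_left _ ih
      _ = 2 ^ (3 * (l + 1)) := by
          rw [mul_add, pow_add]
          norm_num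
          ring

/-- real arithmetic -/
theorem trade {α ρ ρ' p δ ε : ℝ} (hα : α ≤ 1) (hα0 : 0 ≤ α) (hρ1 : ρ' ≤ 1)
    (h1 : α * ρ ≤ (1 - ρ) + δ) (h2 : ρ' - p ≤ ρ) (hp0 : 0 ≤ p) (hp : 16 * p ≤ ε)
    (hδ : 16 * δ ≤ ε) (hε : 0 < ε) : α ≤ 2 * (1 - ρ') + ε := by
  by_cases hc : ρ' ≤ 1 / 2
  · linarith
  · push Not at hc
    by_contra hcon
    push Not at hcon
    have hz : 0 < ρ' - p := by linarith
    have h3 : α * (ρ' - p) ≤ (1 - (ρ' - p)) + δ := by
      have h4 : α * (ρ' - p) ≤ α * ρ := mul_le_mul_of_nonneg_left h2 hα0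
      linarith
    have h4 : (2 * (1 - ρ') + ε) * (ρ' - p) < (1 - (ρ' - p)) + δ :=
      lt_of_lt_of_le (mul_lt_mul_of_pos_right hcon hz) h3
    have h5 : 0 ≤ (1 - ρ') * (2 * ρ' - 1) := mul_nonneg (by linarith) (by linarith)
    have h6 : (1 - ρ') * p ≤ 1 / 2 * p := mul_le_mul_of_nonneg_right (by linarith) hp0
    have h7 : ε * (7 / 16) ≤ ε * (ρ' - p) := mul_le_mul_of_nonneg_left (by linarith) hε.le
    nlinarith

/-- The counting core of the base case. -/
theorem base_core {n L l k : ℕ} (hL : 1 ≤ L) (hLl : L ≤ l) (hnL : n < 2 ^ L)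
    (hk1 : 17 * l ^ 2 * L ≤ k) (hk2 : 512 * l ^ 2 * L * k ≤ n) :
    ∃ (P Ω : Type) (_ : Fintype P) (_ : Fintype Ω) (_ : Nonempty P) (_ : Nonempty Ω)
      (A : P → SimpleGraph (Fin n)) (R : Ω → SimpleGraph (Fin n)),
      (∀ p, ¬ (A p).CliqueFree k) ∧ (∀ ω, (R ω).CliqueFree k) ∧
      ∀ (s : ℕ) (C : Circuit (Sym2 (Fin n)) s) (out : Fin s), s ≤ 2 ^ l →
        (nc (fun p => C.fn out fun e => e ∈ (A p).edgeSet) : ℝ) ≤
          (2 * (1 - nc (fun ω => ¬ C.fn out fun e => e ∈ (R ω).edgeSet) / Fintype.card Ω) +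
            (1 / 2) ^ l) * Fintype.card P := by
  classical
  have hl0 : 1 ≤ l := hL.trans hLl
  have hl1 : 1 ≤ l ^ 2 := Nat.one_le_pow _ _ (by omega)
  have hlL : 1 ≤ l ^ 2 * L := Nat.one_le_iff_ne_zero.2 (Nat.mul_ne_zero (by omega) (by omega))
  have hlL2 : 1 ≤ l * L := Nat.one_le_iff_ne_zero.2 (Nat.mul_ne_zero (by omega) (by omega))
  have hk17 : 17 * (l ^ 2 * L) ≤ k := by rw [← mul_assoc]; exact hk1
  have hk0 : 17 ≤ k := by omega
  have hn0 : 8704 ≤ n := by
    refine le_trans ?_ hk2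
    calc 8704 = 512 * (1 * 17) := by norm_num
      _ ≤ 512 * ((l ^ 2 * L) * k) := Nat.mul_le_mul_left _ (Nat.mul_le_mul hlL hk0)
      _ = _ := by ring
  have hL13 : 13 ≤ L := by
    by_contra hcon
    have h1 : 2 ^ L ≤ 2 ^ 12 := Nat.pow_le_pow_right (by norm_num) (by omega)
    norm_num at h1
    omega
  have hl13 : 13 ≤ l := hL13.trans hLl
  set w : ℕ := 512 * (l ^ 2 * L) with hw
  set Q : ℕ := 4 * l ^ 2 with hQ
  have hQ0 : 1 ≤ Q := by omega
  have : NeZero Q := ⟨by omega⟩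
  have hkw : k * w ≤ n := by
    refine le_trans (le_of_eq ?_) hk2
    rw [hw]
    ring
  have : Nonempty (Fin w) := ⟨⟨0, by omega⟩⟩
  have : Nonempty (Fin k) := ⟨⟨0, by omega⟩⟩
  have hVc : Fintype.card (Fin k × Fin w) = k * w := by
    rw [Fintype.card_prod, Fintype.card_fin, Fintype.card_fin]
  obtain ⟨φ⟩ : Nonempty (Fin k × Fin w ↪ Fin n) := by
    rw [Function.Embedding.nonempty_iff_card_le, hVc, Fintype.card_fin]
    exact hkw
  have hB := blockHyp_dense (k := k) (w := w) (Q := Q) (2 * l) (8 * (l * L)) (by omega) (by omega)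
    (le_of_eq (by rw [hQ]; ring)) (le_of_eq (by rw [hw]; ring))
  set K := Fintype.card (Sym2 (Fin k × Fin w) → Fin Q) with hK
  have hK0 : 0 < K := Fintype.card_pos
  set bad := nc (fun ω : Sym2 (Fin k × Fin w) → Fin Q => ¬ (gr (nz Q) ω).CliqueFree k) with hbaddef
  -- most random graphs contain no clique
  have hbad : 2 ^ (l + 4) * bad ≤ K := by
    have h1 := nc_block (V := Fin k × Fin w) (nz Q) k
    rw [← hK, Fintype.card_fin, card_nz, hVc, ← hbaddef] at h1
    have hcl : 2 ^ (l + 4) * n ^ k * (Q - 1) ^ (k.choose 2) ≤ Q ^ (k.choose 2) := by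
      refine clique_count_pow (l := L) hQ0 hnL.le ?_
      have h2 := two_choose_two k
      have h3 : k * (16 * (l ^ 2 * L)) ≤ k * (k - 1) := Nat.mul_le_mul_left _ (by omega)
      have h4 : 2 * (Q * (k * L + (l + 4))) ≤ k * (16 * (l ^ 2 * L)) := by
        have h5 : (l + 4) * l ^ 2 ≤ k * (l ^ 2 * L) := by
          have h6 : l + 4 ≤ k := by
            have h7 : l * 1 ≤ l * l := Nat.mul_le_mul_left _ hl0
            have h8 : l ^ 2 * 1 ≤ l ^ 2 * L := Nat.mul_le_mul_left _ hL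
            have h9 : l ^ 2 = l * l := sq l
            omega
          calc (l + 4) * l ^ 2 = (l + 4) * (l ^ 2 * 1) := by ring
            _ ≤ k * (l ^ 2 * L) := Nat.mul_le_mul h6 (Nat.mul_le_mul_left _ hL)
        calc 2 * (Q * (k * L + (l + 4))) = 8 * (k * (l ^ 2 * L)) + 8 * ((l + 4) * l ^ 2) := by
              rw [hQ]
              ring
          _ ≤ 8 * (k * (l ^ 2 * L)) + 8 * (k * (l ^ 2 * L)) := by omega
          _ = k * (16 * (l ^ 2 * L)) := by ring
      omega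
    have g2 : 0 < Q ^ (k.choose 2) := by positivity
    refine Nat.le_of_mul_le_mul_left ?_ g2
    calc Q ^ (k.choose 2) * (2 ^ (l + 4) * bad)
        = 2 ^ (l + 4) * (bad * Q ^ (k.choose 2)) := by ring
      _ ≤ 2 ^ (l + 4) * ((k * w).choose k * ((Q - 1) ^ (k.choose 2) * K)) :=
          Nat.mul_le_mul_left _ h1
      _ ≤ 2 ^ (l + 4) * (n ^ k * ((Q - 1) ^ (k.choose 2) * K)) :=
          Nat.mul_le_mul_left _ (Nat.mul_le_mul_right _ ((Nat.choose_le_pow _ k).trans
            (Nat.pow_le_pow_left hkw _)))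
      _ = (2 ^ (l + 4) * n ^ k * (Q - 1) ^ (k.choose 2)) * K := by ring
      _ ≤ Q ^ (k.choose 2) * K := Nat.mul_le_mul_right _ hcl
  have hadd : nc (fun ω : Sym2 (Fin k × Fin w) → Fin Q => (gr (nz Q) ω).CliqueFree k) + bad =
      K := nc_add_nc_not fun ω : Sym2 (Fin k × Fin w) → Fin Q => (gr (nz Q) ω).CliqueFree k
  have hbadlt : 2 * bad ≤ K := by
    refine le_trans (Nat.mul_le_mul_right _ ?_) hbad
    calc 2 = 2 ^ 1 := by norm_num
      _ ≤ 2 ^ (l + 4) := Nat.pow_le_pow_right (by norm_num) (by omega)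
  have hgood0 : 0 < nc (fun ω : Sym2 (Fin k × Fin w) → Fin Q => (gr (nz Q) ω).CliqueFree k) := by
    omega
  have hsub : ∀ p : (Sym2 (Fin k × Fin w) → Fin Q) → Prop,
      nc (fun ω : {ω : Sym2 (Fin k × Fin w) → Fin Q // (gr (nz Q) ω).CliqueFree k} => p ω.1) ≤
      nc p := by
    intro p
    rw [nc_eq, nc_eq]
    refine Finset.card_le_card_of_injOn (fun ω => ω.1) ?_ ?_
    · intro ω hω
      exact Finset.mem_filter.2 ⟨Finset.mem_univ _, (Finset.mem_filter.1 hω).2⟩
    · intro a _ b _ h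
      exact Subtype.ext h
  have hcardΩ : Fintype.card {ω : Sym2 (Fin k × Fin w) → Fin Q // (gr (nz Q) ω).CliqueFree k} =
      nc (fun ω : Sym2 (Fin k × Fin w) → Fin Q => (gr (nz Q) ω).CliqueFree k) := by
    rw [nc_eq, Fintype.card_subtype]
  refine ⟨Fin k → Fin w,
    {ω : Sym2 (Fin k × Fin w) → Fin Q // (gr (nz Q) ω).CliqueFree k}, inferInstance,
    inferInstance, inferInstance, ?_, fun p => (cq (tr p)).map φ, fun ω => (gr (nz Q) ω.1).map φ,
    ?_, ?_, ?_⟩
  · rw [← Fintype.card_pos_iff, hcardΩ]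
    exact hgood0
  · intro p
    have h1 := planted_not_cliqueFree φ p ⊥
    rwa [bot_sup_eq] at h1
  · intro ω
    rw [SimpleGraph.cliqueFree_map_iff]
    exact ω.2
  · intro s C out hs
    have hF := (monoSize_of_circuit C out).restrict φ ⊥
    have hmain := hB.main (by omega) hF
    simp only [bot_sup_eq] at hmain
    set N := Fintype.card (Sym2 (Fin n)) with hN
    set F : SimpleGraph (Fin n) → Prop := fun G => C.fn out fun e => e ∈ G.edgeSet with hFdef
    have hprod : nc (fun x : (Fin k → Fin w) × (Sym2 (Fin k × Fin w) → Fin Q) =>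
        F ((cq (tr x.1)).map φ) ∧ ¬ F ((gr (nz Q) x.2).map φ)) =
        nc (fun p : Fin k → Fin w => F ((cq (tr p)).map φ)) *
        nc (fun ω : Sym2 (Fin k × Fin w) → Fin Q => ¬ F ((gr (nz Q) ω).map φ)) :=
      nc_prod_and (fun p : Fin k → Fin w => F ((cq (tr p)).map φ))
        fun ω : Sym2 (Fin k × Fin w) → Fin Q => ¬ F ((gr (nz Q) ω).map φ)
    rw [hprod] at hmain
    set Pc : ℝ := ((Fintype.card (Fin k → Fin w) : ℕ) : ℝ) with hPc
    have hP0 : (0 : ℝ) < Pc := by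
      rw [hPc]
      exact_mod_cast Fintype.card_pos
    have hKR : (0 : ℝ) < K := by exact_mod_cast hK0
    -- the size of the program
    have hsize : (s + N) * (s + N + 1) ≤ 2 ^ (4 * l) := by
      have e1 := card_sym2_le n
      rw [← hN] at e1
      have e2 : 2 ^ L ≤ 2 ^ l := Nat.pow_le_pow_right (by norm_num) hLl
      have e3 : 4 ≤ 2 ^ l := by
        calc 4 = 2 ^ 2 := by norm_num
          _ ≤ 2 ^ l := Nat.pow_le_pow_right (by norm_num) (by omega)
      have e4 : n * (n + 1) ≤ (2 ^ l - 1) * 2 ^ l := Nat.mul_le_mul (by omega) (by omega)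
      obtain ⟨z, hz⟩ : ∃ z, 2 ^ l = z + 1 := ⟨2 ^ l - 1, by omega⟩
      have e5 : s + N + 1 ≤ 2 ^ l * 2 ^ l := by
        rw [hz] at e4 e3 hs ⊢
        have e6 : (z + 1) * (z + 1) = z * (z + 1) + z + 1 := by ring
        have e7 : 3 * (z + 1) ≤ z * (z + 1) := Nat.mul_le_mul_right _ (by omega)
        have e8 : z + 1 - 1 = z := rfl
        rw [e8] at e4
        omega
      calc (s + N) * (s + N + 1) ≤ (2 ^ l * 2 ^ l) * (2 ^ l * 2 ^ l) :=
            Nat.mul_le_mul (by omega) e5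
        _ = 2 ^ (4 * l) := by
            rw [mul_comm 4 l, pow_mul]
            ring
    have he1 : 2 ^ (l + 5) * ((s + N) * (s + N + 1) * ((2 * l + 1) ^ 2 * 2 ^ (2 * l))) ≤
        32 ^ (2 * l + 1) := by
      calc 2 ^ (l + 5) * ((s + N) * (s + N + 1) * ((2 * l + 1) ^ 2 * 2 ^ (2 * l)))
          ≤ 2 ^ (l + 5) * (2 ^ (4 * l) * (2 ^ (3 * l) * 2 ^ (2 * l))) := by
            refine Nat.mul_le_mul_left _ (Nat.mul_le_mul hsize
              (Nat.mul_le_mul_right _ (sq_le_eight (by omega))))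
        _ = 2 ^ (5 * (2 * l + 1)) := by
            rw [← pow_add, ← pow_add, ← pow_add]
            congr 1
            ring
        _ = 32 ^ (2 * l + 1) := by
            rw [pow_mul]
            norm_num
        _ ≤ _ := le_rfl
    have he2 : 2 ^ (l + 5) * ((s + N) * (s + N + 1) * (k * w + 1) ^ (2 * l)) ≤
        2 ^ (8 * (l * L)) := by
      calc 2 ^ (l + 5) * ((s + N) * (s + N + 1) * (k * w + 1) ^ (2 * l))
          ≤ 2 ^ (l + 5) * (2 ^ (4 * l) * (2 ^ L) ^ (2 * l)) := by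
            refine Nat.mul_le_mul_left _ (Nat.mul_le_mul hsize
              (Nat.pow_le_pow_left (by omega) _))
        _ = 2 ^ (l + 5 + (4 * l + L * (2 * l))) := by
            rw [pow_add 2 (l + 5), pow_add 2 (4 * l), ← pow_mul]
        _ ≤ 2 ^ (8 * (l * L)) := by
            refine Nat.pow_le_pow_right (by norm_num) ?_
            have e1 : l * 13 ≤ l * L := Nat.mul_le_mul_left _ hL13
            have e2 : L * (2 * l) = 2 * (l * L) := by ring
            rw [e2]
            omega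
    set S : ℕ := (s + N) * (s + N + 1) with hS
    set δ : ℝ := (S : ℝ) * (((2 * l : ℕ) + 1) ^ 2 * 2 ^ (2 * l) * (1 / 32 : ℝ) ^ (2 * l + 1) +
        small (Fin k × Fin w) (2 * l) / ((2 ^ (8 * (l * L)) : ℕ) : ℝ)) with hδdef
    set ε : ℝ := (1 / 2) ^ l with hε
    have hε0 : 0 < ε := by
      rw [hε]
      positivity
    have hε2 : ε * 2 ^ l = 1 := by
      rw [hε, ← mul_pow]
      norm_num
    have hδ : 16 * δ ≤ ε := by
      have g1 : 32 * ((S : ℝ) * (((2 * l : ℕ) + 1) ^ 2 * 2 ^ (2 * l) *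
          (1 / 32 : ℝ) ^ (2 * l + 1))) ≤ ε := by
        have e1 : (2 : ℝ) ^ (l + 5) * ((S : ℝ) * (((2 * l : ℕ) + 1) ^ 2 * 2 ^ (2 * l))) ≤
            32 ^ (2 * l + 1) := by exact_mod_cast he1
        have e2 : (1 / 32 : ℝ) ^ (2 * l + 1) * 32 ^ (2 * l + 1) = 1 := by
          rw [← mul_pow]
          norm_num
        have e3 : (0 : ℝ) ≤ ε * (1 / 32 : ℝ) ^ (2 * l + 1) := by positivity
        have e4 := mul_le_mul_of_nonneg_left e1 e3
        calc 32 * ((S : ℝ) * (((2 * l : ℕ) + 1) ^ 2 * 2 ^ (2 * l) * (1 / 32 : ℝ) ^ (2 * l + 1)))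
            = (ε * 2 ^ l) * (32 * ((S : ℝ) * (((2 * l : ℕ) + 1) ^ 2 * 2 ^ (2 * l) *
              (1 / 32 : ℝ) ^ (2 * l + 1)))) := by rw [hε2, one_mul]
          _ = ε * (1 / 32 : ℝ) ^ (2 * l + 1) * ((2 : ℝ) ^ (l + 5) *
              ((S : ℝ) * (((2 * l : ℕ) + 1) ^ 2 * 2 ^ (2 * l)))) := by
              rw [pow_add 2 l 5]
              ring
          _ ≤ ε * (1 / 32 : ℝ) ^ (2 * l + 1) * 32 ^ (2 * l + 1) := e4
          _ = ε := by rw [mul_assoc, e2, mul_one]
      have g2 : 32 * ((S : ℝ) * (small (Fin k × Fin w) (2 * l) /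
          ((2 ^ (8 * (l * L)) : ℕ) : ℝ))) ≤ ε := by
        have e3 := Pool.Agent.H25.NP.small_le (Fin k × Fin w) (2 * l)
        rw [hVc] at e3
        have e4 : 2 ^ (l + 5) * S * small (Fin k × Fin w) (2 * l) ≤ 2 ^ (8 * (l * L)) := by
          refine le_trans ?_ he2
          calc 2 ^ (l + 5) * S * small (Fin k × Fin w) (2 * l)
              ≤ 2 ^ (l + 5) * S * (k * w + 1) ^ (2 * l) := Nat.mul_le_mul_left _ e3
            _ = _ := by ring
        have e5 : ((2 : ℝ) ^ (l + 5) * S * small (Fin k × Fin w) (2 * l)) /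
            ((2 ^ (8 * (l * L)) : ℕ) : ℝ) ≤ 1 := by
          rw [div_le_one (by positivity)]
          exact_mod_cast e4
        have e6 := mul_le_mul_of_nonneg_left e5 hε0.le
        calc 32 * ((S : ℝ) * (small (Fin k × Fin w) (2 * l) / ((2 ^ (8 * (l * L)) : ℕ) : ℝ)))
            = (ε * 2 ^ l) * (32 * ((S : ℝ) * (small (Fin k × Fin w) (2 * l) /
              ((2 ^ (8 * (l * L)) : ℕ) : ℝ)))) := by rw [hε2, one_mul]
          _ = ε * (((2 : ℝ) ^ (l + 5) * S * small (Fin k × Fin w) (2 * l)) /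
            ((2 ^ (8 * (l * L)) : ℕ) : ℝ)) := by
              rw [pow_add 2 l 5]
              ring
          _ ≤ ε * 1 := e6
          _ = ε := mul_one _
      rw [hδdef, mul_add (S : ℝ)]
      linarith
    -- the negative inputs
    set Ω' := {ω : Sym2 (Fin k × Fin w) → Fin Q // (gr (nz Q) ω).CliqueFree k} with hΩ'
    have hΩc : (0 : ℝ) < Fintype.card Ω' := by
      rw [hcardΩ]
      exact_mod_cast hgood0
    have hΩK : (Fintype.card Ω' : ℝ) = K - bad := by
      rw [hcardΩ]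
      have : (nc (fun ω : Sym2 (Fin k × Fin w) → Fin Q => (gr (nz Q) ω).CliqueFree k) : ℝ) +
        bad = K := by exact_mod_cast hadd
      linarith
    set x : ℝ := ((nc (fun ω : Ω' => ¬ F ((gr (nz Q) ω.1).map φ)) : ℕ) : ℝ) with hx
    have hx1 : x ≤ Fintype.card Ω' := by
      rw [hx]
      exact_mod_cast nc_le_card _
    have hx2 : x ≤ nc (fun ω : Sym2 (Fin k × Fin w) → Fin Q => ¬ F ((gr (nz Q) ω).map φ)) := by
      rw [hx]
      exact_mod_cast hsub fun ω => ¬ F ((gr (nz Q) ω).map φ)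
    have hsum : (nc (fun ω : Sym2 (Fin k × Fin w) → Fin Q => F ((gr (nz Q) ω).map φ)) : ℝ) +
        nc (fun ω : Sym2 (Fin k × Fin w) → Fin Q => ¬ F ((gr (nz Q) ω).map φ)) = K := by
      exact_mod_cast nc_add_nc_not fun ω : Sym2 (Fin k × Fin w) → Fin Q =>
        F ((gr (nz Q) ω).map φ)
    set y : ℝ := ((nc (fun ω : Sym2 (Fin k × Fin w) → Fin Q => ¬ F ((gr (nz Q) ω).map φ)) : ℕ) : ℝ)
      with hy
    set z : ℝ := ((nc (fun p : Fin k → Fin w => F ((cq (tr p)).map φ)) : ℕ) : ℝ) with hz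
    have hz1 : z ≤ Pc := by
      rw [hz, hPc]
      exact_mod_cast nc_le_card _
    have hz0 : 0 ≤ z := by
      rw [hz]
      positivity
    have hbadR : (16 : ℝ) * (bad / K) ≤ ε := by
      have e1 : (2 : ℝ) ^ (l + 4) * bad ≤ K := by exact_mod_cast hbad
      have e2 : (2 : ℝ) ^ (l + 4) * bad / K ≤ 1 := by
        rw [div_le_one hKR]
        exact e1
      have e3 := mul_le_mul_of_nonneg_left e2 hε0.le
      calc (16 : ℝ) * (bad / K) = (ε * 2 ^ l) * (16 * (bad / K)) := by rw [hε2, one_mul]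
        _ = ε * ((2 : ℝ) ^ (l + 4) * bad / K) := by
            rw [pow_add 2 l 4]
            ring
        _ ≤ ε * 1 := e3
        _ = ε := mul_one _
    have hratio : x / Fintype.card Ω' - bad / K ≤ y / K := by
      have e1 : x / Fintype.card Ω' ≤ 1 := by
        rw [div_le_one hΩc]
        exact hx1
      have e2 : x / Fintype.card Ω' * K = x + x / Fintype.card Ω' * bad := by
        have e3 : (K : ℝ) = Fintype.card Ω' + bad := by linarith
        calc x / Fintype.card Ω' * K = x / Fintype.card Ω' * (Fintype.card Ω' + bad) := by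
              rw [e3]
          _ = _ := by
              rw [mul_add, div_mul_cancel₀ _ hΩc.ne']
      have e3 : x / Fintype.card Ω' * bad ≤ 1 * bad :=
        mul_le_mul_of_nonneg_right e1 (Nat.cast_nonneg _)
      rw [← sub_nonneg]
      have e4 : y / K - (x / Fintype.card Ω' - bad / K) =
          (y - x / Fintype.card Ω' * K + bad) / K := by
        rw [add_div, sub_div, mul_div_assoc, div_self hKR.ne', mul_one]
        ring
      rw [e4]
      refine div_nonneg ?_ hKR.le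
      linarith
    have hmain2 : z / Pc * (y / K) ≤ (1 - y / K) + δ := by
      have e1 : ((nc (fun p : Fin k → Fin w => F ((cq (tr p)).map φ)) *
        nc (fun ω : Sym2 (Fin k × Fin w) → Fin Q => ¬ F ((gr (nz Q) ω).map φ)) : ℕ) : ℝ) =
          z * y := by
        rw [Nat.cast_mul]
      rw [e1] at hmain
      have e2 : (nc (fun ω : Sym2 (Fin k × Fin w) → Fin Q => F ((gr (nz Q) ω).map φ)) : ℝ) =
        K - y := by linarith
      rw [e2] at hmain
      have e3 : z / Pc * (y / K) = z * y / (Pc * K) := by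
        field_simp
      rw [e3, div_le_iff₀ (mul_pos hP0 hKR)]
      rw [← hK] at hmain
      refine hmain.trans (le_of_eq ?_)
      have e4 : y / K * K = y := div_mul_cancel₀ _ hKR.ne'
      linear_combination Pc * e4
    have hfin := trade (α := z / Pc) (ρ := y / K) (ρ' := x / Fintype.card Ω') (p := bad / K)
      (δ := δ) (ε := ε) (by rw [div_le_one hP0]; exact hz1) (by positivity)
      (by rw [div_le_one hΩc]; exact hx1) hmain2 hratio (by positivity) hbadR hδ hε0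
    rw [div_le_iff₀ hP0] at hfin
    exact hfin

end Pool.Agent.H4.MH
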