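import Pool.Agent.H4.MH.Nil
import Pool.Agent.H4.MH.DualAvg
import Pool.Agent.H27.MH.Gen

/-!
The parts of the theorem in their final form.
-/

namespace Pool.Agent.H4.MH

/-- the own prefix: one small circuit -/
theorem own_form {n k : ℕ} (hn : 0 < n) (b : Bool) (ms : List ℕ) (h : ms ≠ [])
    (hms : ∀ m ∈ ms, 0 < m) :
    ∃ (s : ℕ) (C : Circuit (Var n ms ⊕ (ℕ × Bool)) s) (out : Fin s),
      s ≤ ms.prod * (5 * k ^ 2 * n ^ 2 + 3 * ms.length + 1) ∧
      ∀ x, Tree n k b ms x ↔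
        Quant b (ms.dropLast.map (Nat.clog 2) ++ [Nat.clog 2 (ms.getLast h) + k * Nat.clog 2 n])
          fun y => C.fn out (Sum.elim x fun p => y[p.1]? = some p.2) := by
  obtain ⟨ms', m, rfl⟩ : ∃ ms' m, ms = ms' ++ [m] :=
    ⟨ms.dropLast, ms.getLast h, (List.dropLast_append_getLast h).symm⟩
  have h1 := Pool.Agent.H27.MH.tree_mem n k b ms' m hn (hms m (by simp))
    fun i hi => hms i (by simp [hi])
  obtain ⟨s, C, out, hs, hC⟩ := h1
  refine ⟨s, C, out, hs.trans (le_of_eq ?_), ?_⟩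
  · rw [List.length_append, List.length_singleton]
    congr 1
  · rw [List.dropLast_concat, List.getLast_append_singleton]
    exact hC

/-- the lower bound -/
theorem lower_form {n L l k : ℕ} (hL : 1 ≤ L) (hLl : L ≤ l) (hnL : n < 2 ^ L)
    (hk1 : 17 * l ^ 2 * L ≤ k) (hk2 : 512 * l ^ 2 * L * k ≤ n) (b : Bool) (ms : List ℕ)
    (h : ms ≠ []) (hms : ∀ m ∈ ms, 0 < m) :
    ∃ (r u : ℕ) (pos : Fin r → Var n ms → Prop) (neg : Fin u → Var n ms → Prop),
      (∀ i, Tree n k b ms (pos i)) ∧ (∀ j, ¬ Tree n k b ms (neg j)) ∧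
      ∀ (s a : ℕ) (qs : List ℕ) (C : List Bool → Circuit (Var n ms) s)
        (out : List Bool → Fin s), s ≤ 2 ^ l → a + 2 ≤ l →
        List.Forall₂ (fun m q => 6 * (q + a + 2) ≤ m) ms qs →
        2 ^ (a + 1) * (qs.headI + a + 1) ≤ ms.headI →
        2 ^ a * {i | Quant (!b) qs fun y => (C y).fn (out y) (pos i)}.ncard < r ∨
        2 ^ a * {j | ¬ Quant (!b) qs fun y => (C y).fn (out y) (neg j)}.ncard < u := by
  rcases ms with _ | ⟨m, ms⟩
  · exact absurd rfl h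
  · obtain ⟨r, u, pos, neg, h1, h2, h3⟩ := lower_avg hL hLl hnL hk1 hk2 b m ms hms
    refine ⟨r, u, pos, neg, h1, h2, ?_⟩
    intro s a qs C out hs ha hqs hq
    cases hqs with
    | @cons _ q _ qs _ hqs => exact h3 s a q qs C out hs ha hq hqs

/-- the dual prefix -/
theorem dual_form {n k B : ℕ} (hn : 0 < n) (hB : n ^ 2 ≤ B) (b : Bool) (ms : List ℕ)
    (hms : ∀ m ∈ ms, 0 < m ∧ m ≤ 2 ^ B) (qs : List ℕ) (hlen : qs.length = ms.length)
    (h3 : ∀ q ∈ qs, 6 * B ≤ q) (h : ∃ p ∈ ms.zip qs, 6 * B * p.1 ≤ p.2) :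
    ∃ C : List Bool → Circuit (Var n ms) 1,
      ∀ x, Tree n k b ms x ↔ Quant (!b) qs fun y => (C y).fn 0 x := by
  have hn2 : n * 1 ≤ n * n := Nat.mul_le_mul_left _ hn
  have hsq : n ^ 2 = n * n := sq n
  have hN := card_sym2_le n
  have hN' : n * (n + 1) = n * n + n := by ring
  obtain ⟨p, hp, h4⟩ := h
  refine dual_upper (B := B) (by omega) (by omega) (by omega) b hlen.symm
    (fun m hm => (hms m hm).1) (fun m hm => (hms m hm).2) (fun q hq => ?_) ⟨p, hp, le_trans ?_ h4⟩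
  · have := h3 q hq
    omega
  · exact Nat.mul_le_mul_right _ (by omega)

/-- the dual prefix on average -/
theorem avg_form {n k B : ℕ} (hn : 0 < n) (hB : n ^ 2 ≤ B) (b : Bool) (ms : List ℕ)
    (h : ms ≠ []) (hms : ∀ m ∈ ms, 0 < m ∧ m ≤ 2 ^ B) (qs : List ℕ)
    (hlen : qs.length = ms.length) (h3 : ∀ q ∈ qs, 6 * B ≤ q) (a : ℕ)
    (hq : 6 * B * ms.headI ≤ 2 ^ a * qs.headI) (r u : ℕ)
    (pos : Fin r → Var n ms → Prop) (neg : Fin u → Var n ms → Prop)
    (hpos : ∀ i, Tree n k b ms (pos i)) (hneg : ∀ j, ¬ Tree n k b ms (neg j)) :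
    ∃ C : List Bool → Circuit (Var n ms) 1,
      r ≤ 2 ^ a * {i | Quant (!b) qs fun y => (C y).fn 0 (pos i)}.ncard ∧
      u ≤ 2 ^ a * {j | ¬ Quant (!b) qs fun y => (C y).fn 0 (neg j)}.ncard := by
  have hn2 : n * 1 ≤ n * n := Nat.mul_le_mul_left _ hn
  have hsq : n ^ 2 = n * n := sq n
  have hN := card_sym2_le n
  have hN' : n * (n + 1) = n * n + n := by ring
  rcases ms with _ | ⟨m, ms⟩
  · exact absurd rfl h
  · rcases qs with _ | ⟨q, qs⟩
    · simp at hlen
    · rw [List.length_cons, List.length_cons] at hlen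
      have hq' : 6 * B * m ≤ 2 ^ a * q := hq
      have h6 := h3 q List.mem_cons_self
      have hpos2 : 0 < 2 ^ a := by positivity
      have hm' : m ≤ 2 ^ a * (m / 2 ^ a + 1) := (Nat.lt_mul_div_succ m hpos2).le
      have h7 : 6 * B * (m / 2 ^ a) ≤ q := by
        refine Nat.le_of_mul_le_mul_left ?_ hpos2
        calc 2 ^ a * (6 * B * (m / 2 ^ a)) = 6 * B * (2 ^ a * (m / 2 ^ a)) := by ring
          _ ≤ 6 * B * m := Nat.mul_le_mul_left _ (Nat.mul_div_le m (2 ^ a))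
          _ ≤ 2 ^ a * q := hq'
      have h8 : 3 * B * (m / 2 ^ a + 1) ≤ q := by
        have e1 : 2 * (3 * B * (m / 2 ^ a + 1)) = 6 * B * (m / 2 ^ a) + 6 * B := by ring
        omega
      exact avg_upper (B := B) (by omega) (by omega) (by omega) b m ms
        (fun p hp => (hms p hp).1) (fun p hp => (hms p hp).2) (by omega)
        (fun p hp => by
          have := h3 p hp
          omega) hm' h8 pos neg hpos hneg

/-- general circuits -/
theorem general_form {n k : ℕ} (b : Bool) (ms : List ℕ) (b' : Bool) (q s : ℕ) (qs : List ℕ)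
    (D : Circuit ((Var n ms × Bool) ⊕ (ℕ × Bool)) s) (out : Fin s)
    (hD : ∀ x, Tree n k b ms x ↔ Quant b' (q :: qs) fun y =>
      D.fn out (Sum.elim (fun p => x p.1 ↔ p.2 = true) fun p => y[p.1]? = some p.2)) :
    ∃ (C : Circuit (Var n ms ⊕ (ℕ × Bool)) (s + (Nat.card (Var n ms) + 1)))
      (out' : Fin (s + (Nat.card (Var n ms) + 1))),
      ∀ x, Tree n k b ms x ↔ Quant b' ((Nat.card (Var n ms) + q) :: qs) fun y =>
        C.fn out' (Sum.elim x fun p => y[p.1]? = some p.2) := by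
  rw [Nat.card_eq_fintype_card]
  exact Pool.Agent.H27.MH.general_mem (Tree n k b ms) (fun x y hxy hx => tree_mono n k ms b x y hxy hx)
    b' q s qs D out hD

end Pool.Agent.H4.MH
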