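import Pool.Agent.H4.MH.HardNil

/-!
The base case for both types and the lower bound with explicit parameters.
-/

namespace Pool.Agent.H4.MH

open Finset
open Pool.Agent.H25.NM

theorem half_pow_le {c l : ℕ} (h : c ≤ l) : ((1 : ℝ) / 2) ^ l ≤ (1 / 2) ^ c :=
  pow_le_pow_of_le_one (by norm_num) (by norm_num) h

theorem hard_nil_false {n L l k : ℕ} (hL : 1 ≤ L) (hLl : L ≤ l)
    (hnL : n < 2 ^ L) (hk1 : 17 * l ^ 2 * L ≤ k) (hk2 : 512 * l ^ 2 * L * k ≤ n) :
    Hard n k l false [] := by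
  obtain ⟨P, Ω, i1, i2, i3, i4, A, R, hA, hR, hh⟩ := base_core hL hLl hnL hk1 hk2
  refine ⟨P, Ω, i1, i2, i3, i4, fun p => fun e => e ∈ (A p).edgeSet,
    fun ω => fun e => e ∈ (R ω).edgeSet, ?_, ?_, ?_⟩
  · intro p
    have h1 := hA p
    unfold SimpleGraph.CliqueFree at h1
    push Not at h1
    obtain ⟨U, hU⟩ := h1
    refine ⟨U, hU.card_eq, fun u hu v hv huv => ?_⟩
    exact hU.isClique (Finset.mem_coe.2 hu) (Finset.mem_coe.2 hv) huv
  · rintro ω ⟨U, hU, hadj⟩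
    refine hR ω U ⟨fun u hu v hv huv => ?_, hU⟩
    exact hadj u (Finset.mem_coe.1 hu) v (Finset.mem_coe.1 hv) huv
  · rintro s c qs f hs hc1 hc2 hqs hf
    cases hqs
    obtain ⟨C, out, hC⟩ : ∃ (C : Circuit (Sym2 (Fin n)) s) (out : Fin s), ∀ x, f x ↔ C.fn out x :=
      hf
    have h3 : nc (fun p => f fun e => e ∈ (A p).edgeSet) =
        nc (fun p => C.fn out fun e => e ∈ (A p).edgeSet) :=
      nc_congr fun p => hC fun e => e ∈ (A p).edgeSet
    have h4 : nc (fun ω => ¬ f fun e => e ∈ (R ω).edgeSet) =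
        nc (fun ω => ¬ C.fn out fun e => e ∈ (R ω).edgeSet) :=
      nc_congr fun ω => not_congr (hC fun e => e ∈ (R ω).edgeSet)
    show (nc (fun p => f fun e => e ∈ (A p).edgeSet) : ℝ) ≤
      (2 * (1 - nc (fun ω => ¬ f fun e => e ∈ (R ω).edgeSet) / Fintype.card Ω) + (1 / 2) ^ c) *
        Fintype.card P
    rw [h3, h4]
    refine (hh s C out hs).trans (mul_le_mul_of_nonneg_right ?_ (Nat.cast_nonneg _))
    have := half_pow_le hc2
    linarith

theorem hard_nil_true {n L l k : ℕ} (hL : 1 ≤ L) (hLl : L ≤ l)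
    (hnL : n < 2 ^ L) (hk1 : 17 * l ^ 2 * L ≤ k) (hk2 : 512 * l ^ 2 * L * k ≤ n) :
    Hard n k l true [] := by
  obtain ⟨P, Ω, i1, i2, i3, i4, A, R, hA, hR, hh⟩ := base_core hL hLl hnL hk1 hk2
  refine ⟨Ω, P, i2, i1, i4, i3, fun ω => fun e => ¬ e ∈ (R ω).edgeSet,
    fun p => fun e => ¬ e ∈ (A p).edgeSet, ?_, ?_, ?_⟩
  · intro ω U hU
    by_contra hcon
    push Not at hcon
    refine hR ω U ⟨fun u hu v hv huv => ?_, hU⟩
    have h1 := hcon u (Finset.mem_coe.1 hu) v (Finset.mem_coe.1 hv) huv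
    exact h1
  · intro p hT
    have h1 := hA p
    unfold SimpleGraph.CliqueFree at h1
    push Not at h1
    obtain ⟨U, hU⟩ := h1
    obtain ⟨u, hu, v, hv, huv, h2⟩ := hT U hU.card_eq
    exact h2 (hU.isClique (Finset.mem_coe.2 hu) (Finset.mem_coe.2 hv) huv)
  · rintro s c qs f hs hc1 hc2 hqs hf
    cases hqs
    obtain ⟨C, out, hC⟩ : ∃ (C : Circuit (Sym2 (Fin n)) s) (out : Fin s), ∀ x, f x ↔ C.fn out x :=
      hf
    have h3 : nc (fun p => ¬ f fun e => ¬ e ∈ (A p).edgeSet) =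
        nc (fun p => C.dual.fn out fun e => e ∈ (A p).edgeSet) :=
      nc_congr fun p => not_congr (hC fun e => ¬ e ∈ (A p).edgeSet)
    have h4 : nc (fun ω => f fun e => ¬ e ∈ (R ω).edgeSet) =
        nc (fun ω => ¬ C.dual.fn out fun e => e ∈ (R ω).edgeSet) :=
      nc_congr fun ω => (hC fun e => ¬ e ∈ (R ω).edgeSet).trans not_not.symm
    show (nc (fun p => ¬ f fun e => ¬ e ∈ (A p).edgeSet) : ℝ) ≤
      (2 * (1 - nc (fun ω => f fun e => ¬ e ∈ (R ω).edgeSet) / Fintype.card Ω) + (1 / 2) ^ c) *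
        Fintype.card P
    rw [h3, h4]
    refine (hh s C.dual out hs).trans (mul_le_mul_of_nonneg_right ?_ (Nat.cast_nonneg _))
    have := half_pow_le hc2
    linarith

theorem ncard_eq_nc {α β : Type} [Fintype α] [Fintype β] (e : α ≃ β) (p : β → Prop) :
    {x : α | p (e x)}.ncard = nc p := by
  classical
  rw [← nc_equiv e p, nc_eq, ← Set.ncard_coe_finset]
  congr 1
  ext x
  simp

/-- **The lower bound, on average.** -/
theorem lower_avg {n L l k : ℕ} (hL : 1 ≤ L) (hLl : L ≤ l) (hnL : n < 2 ^ L)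
    (hk1 : 17 * l ^ 2 * L ≤ k) (hk2 : 512 * l ^ 2 * L * k ≤ n) (b : Bool) (m : ℕ) (ms : List ℕ)
    (hm : ∀ a ∈ m :: ms, 0 < a) :
    ∃ (r u : ℕ) (pos : Fin r → Var n (m :: ms) → Prop) (neg : Fin u → Var n (m :: ms) → Prop),
      (∀ i, Tree n k b (m :: ms) (pos i)) ∧ (∀ j, ¬ Tree n k b (m :: ms) (neg j)) ∧
      ∀ (s a q : ℕ) (qs : List ℕ) (C : List Bool → Circuit (Var n (m :: ms)) s)
        (out : List Bool → Fin s), s ≤ 2 ^ l → a + 2 ≤ l → 2 ^ (a + 1) * (q + a + 1) ≤ m →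
        List.Forall₂ (fun m q => 6 * (q + a + 2) ≤ m) ms qs →
        2 ^ a * {i | Quant (!b) (q :: qs) fun y => (C y).fn (out y) (pos i)}.ncard < r ∨
        2 ^ a * {j | ¬ Quant (!b) (q :: qs) fun y => (C y).fn (out y) (neg j)}.ncard < u := by
  have hl : 2 ≤ l := by
    by_contra hcon
    have h1 : l = 1 := by omega
    have h2 : L = 1 := by omega
    subst h1
    subst h2
    norm_num at hnL hk1 hk2
    omega
  have h0 : ∀ b, Hard n k l b [] := by
    intro b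
    cases b with
    | true => exact hard_nil_true hL hLl hnL hk1 hk2
    | false => exact hard_nil_false hL hLl hnL hk1 hk2
  obtain ⟨P, Ω, _, _, _, _, pos, neg, hpos, hneg, hh⟩ := top b (hm m List.mem_cons_self)
    (hard_all hl h0 ms (!b) fun a ha => hm a (List.mem_cons_of_mem _ ha))
  refine ⟨Fintype.card P, Fintype.card Ω, fun i => pos ((Fintype.equivFin P).symm i),
    fun i => neg ((Fintype.equivFin Ω).symm i), fun i => hpos _, fun i => hneg _, ?_⟩
  intro s a q qs C out hs ha hq hqs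
  by_contra hcon
  push Not at hcon
  refine hh s a q qs (fun x => Quant (!b) (q :: qs) fun y => (C y).fn (out y) x) hs ha hq hqs
    (alt_of_quant _ _ _ _) ⟨?_, ?_⟩
  · have h1 := hcon.1
    rw [ncard_eq_nc (Fintype.equivFin P).symm fun p =>
      Quant (!b) (q :: qs) fun y => (C y).fn (out y) (pos p)] at h1
    exact h1
  · have h1 := hcon.2
    rw [ncard_eq_nc (Fintype.equivFin Ω).symm fun ω =>
      ¬ Quant (!b) (q :: qs) fun y => (C y).fn (out y) (neg ω)] at h1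
    exact h1

end Pool.Agent.H4.MH
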